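import Mathlib

set_option autoImplicit false

/-!
# The factorial functional: expansions and the basic combinatorial inequalities
-/

namespace Pool.Agent.NH47.FC

open Finset

variable {n : ℕ}

/-- the product of the factorials of the exponents -/
def fac (s : Fin n →₀ ℕ) : ℕ := ∏ i, (s i).factorial

/-- the total degree of an exponent -/
def dg (s : Fin n →₀ ℕ) : ℕ := ∑ i, s i

lemma fac_pos (s : Fin n →₀ ℕ) : 0 < fac s := prod_pos fun _ _ => Nat.factorial_pos _

lemma fac_zero : fac (0 : Fin n →₀ ℕ) = 1 := by simp [fac]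

lemma dg_add (s t : Fin n →₀ ℕ) : dg (s + t) = dg s + dg t := by
  simp [dg, sum_add_distrib]

lemma dg_smul (c : ℕ) (s : Fin n →₀ ℕ) : dg (c • s) = c * dg s := by
  simp [dg, mul_sum]

lemma dg_sum {ι : Type*} (A : Finset ι) (f : ι → Fin n →₀ ℕ) :
    dg (∑ a ∈ A, f a) = ∑ a ∈ A, dg (f a) := by
  classical
  induction A using Finset.induction_on with
  | empty => simp [dg]
  | insert a s ha ih => rw [sum_insert ha, sum_insert ha, dg_add, ih]

/-- the functional -/
noncomputable def L : MvPolynomial (Fin n) ℂ →ₗ[ℂ] ℂ :=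
  (MvPolynomial.basisMonomials (Fin n) ℂ).constr ℂ (fun s => (fac s : ℂ))

lemma L_monomial (s : Fin n →₀ ℕ) (c : ℂ) : L (MvPolynomial.monomial s c) = c * (fac s : ℂ) := by
  have h1 : (MvPolynomial.monomial s c : MvPolynomial (Fin n) ℂ) =
      c • (MvPolynomial.basisMonomials (Fin n) ℂ s) := by
    rw [MvPolynomial.coe_basisMonomials, MvPolynomial.smul_monomial, smul_eq_mul, mul_one]
  rw [h1, map_smul]
  unfold L
  rw [Module.Basis.constr_basis, smul_eq_mul]

lemma L_eq (p : MvPolynomial (Fin n) ℂ) :
    L p = ∑ s ∈ p.support, p.coeff s * ∏ i : Fin n, (((s i).factorial : ℕ) : ℂ) := by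
  conv_lhs => rw [← MvPolynomial.support_sum_monomial_coeff p]
  rw [map_sum]
  refine sum_congr rfl fun s _ => ?_
  rw [L_monomial, fac]
  push_cast
  rfl

/-- expansion of a power of a sum of monomials -/
lemma expand {R : Type*} [CommSemiring R] (A : Finset (Fin n →₀ ℕ)) (h : (Fin n →₀ ℕ) → R)
    (s : ℕ) : (∑ a ∈ A, MvPolynomial.monomial a (h a)) ^ s =
      ∑ k ∈ A.piAntidiag s, MvPolynomial.monomial (∑ a ∈ A, k a • a)
        ((Nat.multinomial A k : R) * ∏ a ∈ A, h a ^ k a) := by
  classical
  rw [sum_pow_eq_sum_piAntidiag]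
  refine sum_congr rfl fun k _ => ?_
  have h1 : ∏ a ∈ A, (MvPolynomial.monomial a (h a)) ^ k a =
      MvPolynomial.monomial (∑ a ∈ A, k a • a) (∏ a ∈ A, h a ^ k a) := by
    rw [MvPolynomial.monomial_sum_prod]
    exact prod_congr rfl fun a _ => MvPolynomial.monomial_pow
  rw [h1]
  have h2 : ((Nat.multinomial A k : ℕ) : MvPolynomial (Fin n) R) =
      MvPolynomial.C ((Nat.multinomial A k : ℕ) : R) := (map_natCast MvPolynomial.C _).symm
  rw [h2, MvPolynomial.C_mul_monomial]

/-- the coefficients of a power of the sum of the variables -/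
lemma coeff_pow_sum (N : ℕ) (E : Fin n →₀ ℕ) (hE : dg E = N) :
    fac E * MvPolynomial.coeff E ((∑ i, MvPolynomial.X i : MvPolynomial (Fin n) ℕ) ^ N) =
      N.factorial := by
  classical
  have h1 : ∀ k : Fin n → ℕ, ∏ i, (MvPolynomial.X i : MvPolynomial (Fin n) ℕ) ^ k i =
      MvPolynomial.monomial (Finsupp.equivFunOnFinite.symm k) 1 := by
    intro k
    rw [MvPolynomial.monomial_eq, MvPolynomial.C_1, one_mul, Finsupp.prod_fintype]
    · rfl
    · intro i
      exact pow_zero _
  have h2 : MvPolynomial.coeff E ((∑ i, MvPolynomial.X i : MvPolynomial (Fin n) ℕ) ^ N) =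
      Nat.multinomial univ E := by
    rw [sum_pow_eq_sum_piAntidiag, MvPolynomial.coeff_sum]
    rw [sum_eq_single (E : Fin n → ℕ)]
    · rw [h1]
      have h3 : ((Nat.multinomial univ (E : Fin n → ℕ) : ℕ) : MvPolynomial (Fin n) ℕ) =
        MvPolynomial.C (Nat.multinomial univ (E : Fin n → ℕ)) := (map_natCast MvPolynomial.C _).symm
      rw [h3, MvPolynomial.C_mul_monomial, mul_one, MvPolynomial.coeff_monomial, if_pos]
      exact Finsupp.equivFunOnFinite.symm_apply_apply E
    · intro k _ hk
      rw [h1]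
      have h3 : ((Nat.multinomial univ k : ℕ) : MvPolynomial (Fin n) ℕ) =
        MvPolynomial.C (Nat.multinomial univ k) := (map_natCast MvPolynomial.C _).symm
      rw [h3, MvPolynomial.C_mul_monomial, mul_one, MvPolynomial.coeff_monomial, if_neg]
      intro h
      apply hk
      rw [← h]
      rfl
    · intro h
      exfalso
      apply h
      rw [mem_piAntidiag]
      exact ⟨hE, fun i _ => mem_univ i⟩
  rw [h2, ← hE]
  exact Nat.multinomial_spec univ E

/-- the multinomial coefficient of an exponent -/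
def mu (a : Fin n →₀ ℕ) : ℕ := Nat.multinomial univ a

lemma fac_mul_mu (a : Fin n →₀ ℕ) : fac a * mu a = (dg a).factorial :=
  Nat.multinomial_spec univ a

lemma mu_pos (a : Fin n →₀ ℕ) : 0 < mu a := Nat.multinomial_pos _ _

/-- **The combinatorial inequality.** -/
lemma star (D m : ℕ) (A : Finset (Fin n →₀ ℕ)) (hA : ∀ a ∈ A, dg a = D)
    (k : (Fin n →₀ ℕ) → ℕ) (hk : k ∈ A.piAntidiag m) :
    fac (∑ a ∈ A, k a • a) * (Nat.multinomial A k * ∏ a ∈ A, mu a ^ k a) ≤ (D * m).factorial := by
  classical
  set Pn : MvPolynomial (Fin n) ℕ := ∑ i, MvPolynomial.X i with hPn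
  have hc : ∀ a ∈ A, MvPolynomial.coeff a (Pn ^ D) = mu a := by
    intro a ha
    have h1 := coeff_pow_sum D a (hA a ha)
    have h2 := fac_mul_mu a
    rw [hA a ha, ← h1] at h2
    exact (Nat.eq_of_mul_eq_mul_left (fac_pos a) h2).symm
  set Q : MvPolynomial (Fin n) ℕ := ∑ a ∈ A, MvPolynomial.monomial a (mu a) with hQ
  obtain ⟨R, hR⟩ : ∃ R, Pn ^ D = Q + R := by
    have hsub : A ⊆ (Pn ^ D).support := by
      intro a ha
      rw [MvPolynomial.mem_support_iff, hc a ha]
      exact (mu_pos a).ne'
    refine ⟨∑ a ∈ (Pn ^ D).support \ A, MvPolynomial.monomial a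
      (MvPolynomial.coeff a (Pn ^ D)), ?_⟩
    conv_lhs => rw [← MvPolynomial.support_sum_monomial_coeff (Pn ^ D)]
    rw [← sum_sdiff hsub, add_comm]
    congr 1
    exact sum_congr rfl fun a ha => by rw [hc a ha]
  have hpow : ∀ j : ℕ, ∃ R', (Pn ^ D) ^ j = Q ^ j + R' := by
    intro j
    induction j with
    | zero => exact ⟨0, by simp⟩
    | succ j ih =>
      obtain ⟨R', hR'⟩ := ih
      refine ⟨Q ^ j * R + R' * (Q + R), ?_⟩
      rw [pow_succ, hR', hR, pow_succ]
      ring
  obtain ⟨R', hR'⟩ := hpow m
  set E := ∑ a ∈ A, k a • a with hE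
  have hdE : dg E = D * m := by
    rw [hE, dg_sum]
    rw [mem_piAntidiag] at hk
    rw [← hk.1, mul_sum]
    refine sum_congr rfl fun a ha => ?_
    rw [dg_smul, hA a ha, mul_comm]
  have h1 := coeff_pow_sum (D * m) E hdE
  rw [pow_mul, hR', MvPolynomial.coeff_add] at h1
  rw [← h1]
  refine Nat.mul_le_mul_left _ (le_trans ?_ (Nat.le_add_right _ _))
  rw [hQ, expand, MvPolynomial.coeff_sum]
  refine le_trans (le_of_eq ?_) (single_le_sum (fun _ _ => Nat.zero_le _) hk)
  rw [MvPolynomial.coeff_monomial, if_pos rfl]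
  rfl

/-- adding an exponent -/
lemma fac_add_le (E b : Fin n →₀ ℕ) :
    fac (E + b) * (dg E).factorial ≤ fac E * (dg E + dg b).factorial := by
  classical
  have key : ∀ s : Finset (Fin n), (∏ i ∈ s, (E i + b i).factorial) * (∑ i ∈ s, E i).factorial ≤
      (∏ i ∈ s, (E i).factorial) * (∑ i ∈ s, E i + ∑ i ∈ s, b i).factorial := by
    intro s
    induction s using Finset.induction_on with
    | empty => simp
    | insert j s hj ih =>
      rw [prod_insert hj, prod_insert hj, sum_insert hj, sum_insert hj]
      set x := E j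
      set y := b j
      set X := ∑ i ∈ s, E i
      set Y := ∑ i ∈ s, b i
      set P := ∏ i ∈ s, (E i).factorial
      set P' := ∏ i ∈ s, (E i + b i).factorial
      -- `C(x+X, x) ≤ C(x+y+X+Y, x+y)`
      have h1 : (x + X).choose x ≤ (x + X + (y + Y)).choose (x + y) := by
        have a1 : (x + X).choose x = (x + X).choose X := by
          rw [Nat.choose_symm_add]
        have a2 : (x + X).choose X ≤ (x + y + X).choose X :=
          Nat.choose_le_choose X (by omega)
        have a3 : (x + y + X).choose X = (x + y + X).choose (x + y) := by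
          rw [← Nat.choose_symm_add]
        have a4 : (x + y + X).choose (x + y) ≤ (x + X + (y + Y)).choose (x + y) :=
          Nat.choose_le_choose _ (by omega)
        rw [a1]
        exact a2.trans (a3.le.trans a4)
      have h2 : (x + X).choose x * (x.factorial * X.factorial) = (x + X).factorial := by
        have := Nat.choose_mul_factorial_mul_factorial (Nat.le_add_right x X)
        rw [Nat.add_sub_cancel_left] at this
        rw [← this]; ring
      have h3 : (x + X + (y + Y)).choose (x + y) * ((x + y).factorial * (X + Y).factorial) =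
          (x + X + (y + Y)).factorial := by
        have := Nat.choose_mul_factorial_mul_factorial
          (show x + y ≤ x + X + (y + Y) by omega)
        rw [show x + X + (y + Y) - (x + y) = X + Y by omega] at this
        rw [← this]; ring
      rw [← h2, ← h3]
      calc (x + y).factorial * P' * ((x + X).choose x * (x.factorial * X.factorial))
          = ((x + y).factorial * x.factorial) * ((P' * X.factorial) * (x + X).choose x) := by ring
        _ ≤ ((x + y).factorial * x.factorial) *
            ((P * (X + Y).factorial) * (x + X + (y + Y)).choose (x + y)) :=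
          Nat.mul_le_mul_left _ (Nat.mul_le_mul ih h1)
        _ = _ := by ring
  have h := key univ
  exact h

end Pool.Agent.NH47.FC
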