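import Pool.Agent.NH47.FC.Comb

set_option autoImplicit false

/-!
# The factorial functional: limits and sums
-/

namespace Pool.Agent.NH47.FC

open Finset Filter Topology

lemma lim_lin (D : ℝ) (hD : 0 < D) (α β : ℝ) :
    Tendsto (fun m : ℕ => ((m : ℝ) + α) / (D * m + β)) atTop (𝓝 (1 / D)) := by
  have h1 : Tendsto (fun m : ℕ => D * (m : ℝ) + β) atTop atTop :=
    tendsto_atTop_add_const_right _ _
      (tendsto_natCast_atTop_atTop.const_mul_atTop hD)
  have h2 : Tendsto (fun m : ℕ => 1 / D + (α - β / D) / (D * (m : ℝ) + β)) atTop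
      (𝓝 (1 / D + 0)) := tendsto_const_nhds.add (tendsto_const_nhds.div_atTop h1)
  rw [add_zero] at h2
  refine h2.congr' ?_
  filter_upwards [h1.eventually_gt_atTop 0] with m hm
  field_simp
  ring

lemma lim_inv (D : ℝ) (hD : 0 < D) (β : ℝ) :
    Tendsto (fun m : ℕ => 1 / (D * (m : ℝ) + β)) atTop (𝓝 0) := by
  have h1 : Tendsto (fun m : ℕ => D * (m : ℝ) + β) atTop atTop :=
    tendsto_atTop_add_const_right _ _
      (tendsto_natCast_atTop_atTop.const_mul_atTop hD)
  exact tendsto_const_nhds.div_atTop h1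

lemma lim_ratio (D : ℕ) (hD : 1 ≤ D) (q s y : ℕ) (hsy : s ≤ y) :
    Tendsto (fun m : ℕ => (m.choose s : ℝ) / ((D * m + q).descFactorial y : ℝ)) atTop
      (𝓝 ((1 / (D : ℝ)) ^ s * 0 ^ (y - s) / s.factorial)) := by
  have hD' : (0 : ℝ) < D := by exact_mod_cast hD
  have h1 : Tendsto (fun m : ℕ => ∏ i ∈ range s,
      (((m : ℝ) + (-(i : ℝ))) / ((D : ℝ) * m + ((q : ℝ) - i)))) atTop
      (𝓝 (∏ _i ∈ range s, 1 / (D : ℝ))) :=
    tendsto_finsetProd _ fun i _ => lim_lin D hD' _ _
  have h2 : Tendsto (fun m : ℕ => ∏ i ∈ Ico s y, (1 / ((D : ℝ) * m + ((q : ℝ) - i)))) atTop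
      (𝓝 (∏ _i ∈ Ico s y, (0 : ℝ))) :=
    tendsto_finsetProd _ fun i _ => lim_inv D hD' _
  rw [prod_const, card_range] at h1
  rw [prod_const, Nat.card_Ico] at h2
  have h3 := (h1.mul h2).div_const (s.factorial : ℝ)
  refine h3.congr' ?_
  filter_upwards [eventually_ge_atTop (s + y)] with m hm
  have hN : y ≤ D * m + q := by nlinarith
  have e1 : (m.choose s : ℝ) = (∏ i ∈ range s, ((m : ℝ) + (-(i : ℝ)))) / s.factorial := by
    have h4 := Nat.descFactorial_eq_factorial_mul_choose m s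
    have h5 : (m.descFactorial s : ℝ) = ∏ i ∈ range s, ((m : ℝ) + (-(i : ℝ))) := by
      rw [Nat.descFactorial_eq_prod_range]
      push_cast
      refine prod_congr rfl fun i hi => ?_
      rw [mem_range] at hi
      rw [Nat.cast_sub (by omega)]
      ring
    have h6 : (s.factorial : ℝ) ≠ 0 := by exact_mod_cast s.factorial_ne_zero
    rw [← h5, h4]
    push_cast
    field_simp
  have e2 : ((D * m + q).descFactorial y : ℝ) =
      (∏ i ∈ range s, ((D : ℝ) * m + ((q : ℝ) - i))) * ∏ i ∈ Ico s y,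
        ((D : ℝ) * m + ((q : ℝ) - i)) := by
    rw [Nat.descFactorial_eq_prod_range]
    push_cast
    rw [prod_range_mul_prod_Ico _ hsy]
    refine prod_congr rfl fun i hi => ?_
    rw [mem_range] at hi
    rw [Nat.cast_sub (by omega)]
    push_cast
    ring
  rw [e1, e2, prod_div_distrib, prod_div_distrib, prod_const_one]
  rw [div_mul_div_comm, mul_one, div_div, div_div]
  congr 1
  ring

/-- Tannery's theorem for exponential type sums. -/
lemma exp_lemma {ι : Type*} [DecidableEq ι] (B : Finset ι) (g ω : ι → ℂ) (Cst K : ℝ) (Λ : ℂ)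
    (Y : ℕ → ℕ → (ι → ℕ) → ℂ) (hC : 0 ≤ Cst) (hK : 0 ≤ K)
    (hb : ∀ m j, j ≤ m → ∀ k ∈ B.piAntidiag j, ‖Y m j k‖ ≤ Cst * K ^ j / j.factorial)
    (hl : ∀ j, ∀ k ∈ B.piAntidiag j,
      Tendsto (fun m => Y m j k) atTop (𝓝 (Λ / j.factorial * ∏ b ∈ B, ω b ^ k b))) :
    Tendsto (fun m : ℕ => ∑ j ∈ range (m + 1), ∑ k ∈ B.piAntidiag j,
      ((Nat.multinomial B k : ℂ) * ∏ b ∈ B, g b ^ k b) * Y m j k) atTop
      (𝓝 (Λ * Complex.exp (∑ b ∈ B, g b * ω b))) := by
  set G : ℝ := ∑ b ∈ B, ‖g b‖ with hG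
  set θ : ℂ := ∑ b ∈ B, g b * ω b with hθ
  let Fm : ℕ → ℕ → ℂ := fun m j => if j ≤ m then ∑ k ∈ B.piAntidiag j,
      ((Nat.multinomial B k : ℂ) * ∏ b ∈ B, g b ^ k b) * Y m j k else 0
  have h1 : ∀ m : ℕ, ∑ j ∈ range (m + 1), ∑ k ∈ B.piAntidiag j,
      ((Nat.multinomial B k : ℂ) * ∏ b ∈ B, g b ^ k b) * Y m j k = ∑' j, Fm m j := by
    intro m
    rw [tsum_eq_sum (s := range (m + 1))]
    · refine sum_congr rfl fun j hj => ?_
      rw [mem_range] at hj
      change _ = if j ≤ m then _ else _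
      rw [if_pos (by omega)]
    · intro j hj
      rw [mem_range] at hj
      change (if j ≤ m then _ else _) = _
      rw [if_neg (by omega)]
  have h2 : Λ * Complex.exp θ = ∑' j : ℕ, Λ * (θ ^ j / j.factorial) := by
    rw [tsum_mul_left, Complex.exp_eq_exp_ℂ, NormedSpace.exp_eq_tsum_div]
  rw [h2]
  simp only [h1]
  refine tendsto_tsum_of_dominated_convergence
    (bound := fun j => Cst * ((K * G) ^ j / j.factorial)) ?_ ?_ ?_
  · exact (Real.summable_pow_div_factorial (K * G)).mul_left Cst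
  · intro j
    have h3 : Tendsto (fun m => ∑ k ∈ B.piAntidiag j,
        ((Nat.multinomial B k : ℂ) * ∏ b ∈ B, g b ^ k b) * Y m j k) atTop
        (𝓝 (∑ k ∈ B.piAntidiag j, ((Nat.multinomial B k : ℂ) * ∏ b ∈ B, g b ^ k b) *
          (Λ / j.factorial * ∏ b ∈ B, ω b ^ k b))) :=
      tendsto_finsetSum _ fun k hk => (hl j k hk).const_mul _
    have h4 : ∑ k ∈ B.piAntidiag j, ((Nat.multinomial B k : ℂ) * ∏ b ∈ B, g b ^ k b) *
          (Λ / j.factorial * ∏ b ∈ B, ω b ^ k b) = Λ * (θ ^ j / j.factorial) := by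
      rw [hθ, sum_pow_eq_sum_piAntidiag, sum_div, mul_sum]
      refine sum_congr rfl fun k _ => ?_
      simp only [mul_pow]
      rw [prod_mul_distrib]
      ring
    rw [h4] at h3
    refine h3.congr' ?_
    filter_upwards [eventually_ge_atTop j] with m hm
    change _ = if j ≤ m then _ else _
    rw [if_pos hm]
  · refine Eventually.of_forall fun m j => ?_
    change ‖if j ≤ m then _ else _‖ ≤ _
    split_ifs with hjm
    · refine (norm_sum_le _ _).trans ?_
      have h5 : ∀ k ∈ B.piAntidiag j, ‖((Nat.multinomial B k : ℂ) * ∏ b ∈ B, g b ^ k b) *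
          Y m j k‖ ≤ ((Nat.multinomial B k : ℝ) * ∏ b ∈ B, ‖g b‖ ^ k b) *
            (Cst * K ^ j / j.factorial) := by
        intro k hk
        rw [norm_mul, norm_mul, norm_prod, Complex.norm_natCast]
        simp only [norm_pow]
        exact mul_le_mul_of_nonneg_left (hb m j hjm k hk) (by positivity)
      refine (sum_le_sum h5).trans (le_of_eq ?_)
      rw [← sum_mul, ← sum_pow_eq_sum_piAntidiag, ← hG, mul_pow]
      ring
    · rw [norm_zero]
      have : 0 ≤ G := sum_nonneg fun b _ => norm_nonneg _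
      positivity

/-- Products of series over the exponents. -/
lemma gsum {ι : Type*} [DecidableEq ι] {𝕜 : Type*} [NormedField 𝕜] [CompleteSpace 𝕜]
    (A : Finset ι) (φ : ι → ℕ → 𝕜) (hφ : ∀ a ∈ A, Summable fun j => ‖φ a j‖) :
    (Summable fun s => ‖∑ k ∈ A.piAntidiag s, ∏ a ∈ A, φ a (k a)‖) ∧
    ∑' s, ∑ k ∈ A.piAntidiag s, ∏ a ∈ A, φ a (k a) = ∏ a ∈ A, ∑' j, φ a j := by
  induction A using Finset.cons_induction_on with
  | empty =>
    have h1 : ∀ s : ℕ, ∑ k ∈ (∅ : Finset ι).piAntidiag s, ∏ a ∈ (∅ : Finset ι), φ a (k a) =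
        if s = 0 then 1 else 0 := by
      intro s
      rw [piAntidiag_empty]
      split_ifs <;> simp
    simp only [h1]
    constructor
    · refine summable_of_ne_finset_zero (s := {0}) fun s hs => ?_
      rw [mem_singleton] at hs
      rw [if_neg hs, norm_zero]
    · rw [tsum_ite_eq, prod_empty]
  | cons a A ha ih =>
    obtain ⟨ih1, ih2⟩ := ih fun b hb => hφ b (mem_cons_of_mem hb)
    have h1 : ∀ s : ℕ, ∑ k ∈ (cons a A ha).piAntidiag s, ∏ b ∈ cons a A ha, φ b (k b) =
        ∑ p ∈ antidiagonal s, φ a p.1 * ∑ k ∈ A.piAntidiag p.2, ∏ b ∈ A, φ b (k b) := by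
      intro s
      rw [piAntidiag_cons, sum_disjiUnion]
      refine sum_congr rfl fun p _ => ?_
      rw [sum_map, mul_sum]
      refine sum_congr rfl fun k hk => ?_
      rw [mem_piAntidiag] at hk
      have hka : k a = 0 := by
        by_contra hne
        exact ha (hk.2 a hne)
      rw [prod_cons]
      rw [addRightEmbedding_apply]
      have e1 : (k + fun t => if t = a then p.1 else 0) a = p.1 := by
        rw [Pi.add_apply, hka, zero_add, if_pos rfl]
      have e2 : ∀ b ∈ A, (k + fun t => if t = a then p.1 else 0) b = k b := by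
        intro b hb
        rw [Pi.add_apply, if_neg (ne_of_mem_of_not_mem hb ha), add_zero]
      rw [e1]
      congr 1
      exact prod_congr rfl fun b hb => by rw [e2 b hb]
    have hs1 := hφ a (mem_cons_self a A)
    simp only [h1]
    constructor
    · exact summable_norm_sum_mul_antidiagonal_of_summable_norm (f := φ a)
        (g := fun j => ∑ k ∈ A.piAntidiag j, ∏ b ∈ A, φ b (k b)) hs1 ih1
    · rw [prod_cons, ← ih2]
      exact (tsum_mul_tsum_eq_tsum_sum_antidiagonal_of_summable_norm (f := φ a)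
        (g := fun j => ∑ k ∈ A.piAntidiag j, ∏ b ∈ A, φ b (k b)) hs1 ih1).symm

end Pool.Agent.NH47.FC
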