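import Pool.Agent.NH47.FC.Main

set_option autoImplicit false

/-!
# The factorial functional: terms of lower degree
-/

namespace Pool.Agent.NH47.FC

open Finset Filter Topology

variable {n : ℕ}

/-- expansion with respect to the part of lower degree -/
lemma expandL (F : MvPolynomial (Fin n) ℂ) (B : Finset (Fin n →₀ ℕ)) (g : (Fin n →₀ ℕ) → ℂ)
    (m : ℕ) : L ((F + ∑ b ∈ B, MvPolynomial.monomial b (g b)) ^ m) =
      ∑ j ∈ range (m + 1), ∑ k ∈ B.piAntidiag j,
        ((Nat.multinomial B k : ℂ) * ∏ b ∈ B, g b ^ k b) *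
          ((m.choose j : ℂ) * L (F ^ (m - j) * MvPolynomial.monomial (∑ b ∈ B, k b • b) 1)) := by
  rw [add_comm, add_pow, map_sum]
  refine sum_congr rfl fun j _ => ?_
  rw [expand, sum_mul, sum_mul, map_sum]
  refine sum_congr rfl fun k _ => ?_
  have h1 : (MvPolynomial.monomial (∑ b ∈ B, k b • b)
      ((Nat.multinomial B k : ℂ) * ∏ b ∈ B, g b ^ k b) : MvPolynomial (Fin n) ℂ) =
      ((Nat.multinomial B k : ℂ) * ∏ b ∈ B, g b ^ k b) •
        MvPolynomial.monomial (∑ b ∈ B, k b • b) 1 := by
    rw [MvPolynomial.smul_monomial, smul_eq_mul, mul_one]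
  have h2 : ((m.choose j : ℕ) : MvPolynomial (Fin n) ℂ) =
      MvPolynomial.C ((m.choose j : ℕ) : ℂ) := (map_natCast MvPolynomial.C _).symm
  rw [h1, h2, smul_mul_assoc, smul_mul_assoc, map_smul, smul_eq_mul, mul_comm _ (MvPolynomial.C _),
    ← MvPolynomial.smul_eq_C_mul, map_smul, smul_eq_mul, mul_comm (F ^ (m - j))]

lemma choose_div_le (D m j : ℕ) (hD : 1 ≤ D) (hjm : j ≤ m) :
    (m.choose j : ℝ) * ((D * m - j).factorial : ℝ) / ((D * m).factorial : ℝ) ≤
      1 / j.factorial := by
  have h1 : j ≤ D * m := by nlinarith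
  have h2 := Nat.factorial_mul_descFactorial h1
  have h3 := Nat.descFactorial_eq_factorial_mul_choose m j
  have h4 : m.descFactorial j ≤ (D * m).descFactorial j :=
    Nat.descFactorial_le j (by nlinarith)
  have h5 : (j.factorial * m.choose j) * (D * m - j).factorial ≤ (D * m).factorial := by
    rw [← h3, ← h2, mul_comm (D * m - j).factorial]
    exact Nat.mul_le_mul_right _ h4
  have h6 : (0 : ℝ) < (D * m).factorial := by exact_mod_cast Nat.factorial_pos _
  have h7 : (0 : ℝ) < j.factorial := by exact_mod_cast Nat.factorial_pos _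
  rw [div_le_div_iff₀ h6 h7, one_mul]
  have h8 : ((j.factorial : ℝ) * m.choose j) * (D * m - j).factorial ≤ (D * m).factorial := by
    exact_mod_cast h5
  linarith

/-- **The vertex case.** -/
theorem vert {i₀ : Fin n} {D : ℕ} {A : Finset (Fin n →₀ ℕ)} {h : (Fin n →₀ ℕ) → ℂ}
    (H : Top i₀ D A h) (B : Finset (Fin n →₀ ℕ)) (g : (Fin n →₀ ℕ) → ℂ)
    (hB : ∀ b ∈ B, dg b < D) :
    ∃ Λ : ℂ, Λ ≠ 0 ∧ Tendsto (fun m : ℕ =>
      L ((FF i₀ D A h + ∑ b ∈ B, MvPolynomial.monomial b (g b)) ^ m) /
        ((D * m).factorial : ℂ)) atTop (𝓝 Λ) := by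
  classical
  obtain ⟨C, Λ, hC, hΛ, hb1, hb2⟩ := level1 H
  have hD := H.D1
  have hD0 : (D : ℂ) ≠ 0 := by exact_mod_cast (by omega : D ≠ 0)
  let ω : (Fin n →₀ ℕ) → ℂ := fun b => if b = Finsupp.single i₀ (D - 1) then 1 / (D : ℂ) else 0
  refine ⟨Λ * Complex.exp (∑ b ∈ B, g b * ω b), mul_ne_zero hΛ (Complex.exp_ne_zero _), ?_⟩
  let Y : ℕ → ℕ → ((Fin n →₀ ℕ) → ℕ) → ℂ := fun m j k => (m.choose j : ℂ) *
    L (FF i₀ D A h ^ (m - j) * MvPolynomial.monomial (∑ b ∈ B, k b • b) 1) /
      ((D * m).factorial : ℂ)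
  have hdg : ∀ j, ∀ k ∈ B.piAntidiag j, dg (∑ b ∈ B, k b • b) ≤ (D - 1) * j := by
    intro j k hk
    rw [dg_sum, ← (mem_piAntidiag.1 hk).1, mul_sum]
    refine sum_le_sum fun b hb => ?_
    rw [dg_smul, mul_comm]
    exact Nat.mul_le_mul_right _ (by have := hB b hb; omega)
  have hmain := exp_lemma B g ω C 1 Λ Y hC zero_le_one ?_ ?_
  · refine hmain.congr fun m => ?_
    rw [expandL, sum_div]
    refine sum_congr rfl fun j _ => ?_
    rw [sum_div]
    refine sum_congr rfl fun k _ => ?_
    change _ * ((m.choose j : ℂ) * _ / _) = _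
    ring
  · intro m j hjm k hk
    change ‖(m.choose j : ℂ) * _ / _‖ ≤ _
    rw [norm_div, norm_mul, Complex.norm_natCast, Complex.norm_natCast, one_pow, mul_one]
    have h1 := hb1 (m - j) (∑ b ∈ B, k b • b)
    have h2 : D * (m - j) + dg (∑ b ∈ B, k b • b) ≤ D * m - j := by
      have h3 := hdg j k hk
      obtain ⟨t, rfl⟩ : ∃ t, m = j + t := ⟨m - j, by omega⟩
      rw [Nat.add_sub_cancel_left, mul_add]
      obtain ⟨D', rfl⟩ : ∃ D', D = D' + 1 := ⟨D - 1, by omega⟩
      rw [Nat.add_sub_cancel] at h3
      have : (D' + 1) * j = D' * j + j := by ring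
      rw [this]
      omega
    have h3 : ‖L (FF i₀ D A h ^ (m - j) * MvPolynomial.monomial (∑ b ∈ B, k b • b) 1)‖ ≤
        C * (D * m - j).factorial := by
      refine h1.trans (mul_le_mul_of_nonneg_left ?_ hC)
      exact_mod_cast Nat.factorial_le h2
    have h6 : (0 : ℝ) < (D * m).factorial := by exact_mod_cast Nat.factorial_pos _
    calc _ ≤ (m.choose j : ℝ) * (C * (D * m - j).factorial) / (D * m).factorial :=
          div_le_div_of_nonneg_right (mul_le_mul_of_nonneg_left h3 (Nat.cast_nonneg _)) h6.le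
      _ = C * ((m.choose j : ℝ) * ((D * m - j).factorial : ℝ) / ((D * m).factorial : ℝ)) := by
          ring
      _ ≤ C * (1 / j.factorial) := mul_le_mul_of_nonneg_left (choose_div_le D m j hD hjm) hC
      _ = _ := by ring
  · intro j k hk
    set E := ∑ b ∈ B, k b • b with hE
    have hk' := mem_piAntidiag.1 hk
    have he := hdg j k hk
    rw [← hE] at he
    set y := D * j - dg E with hy
    have hDj : (D - 1) * j + j = D * j := by
      obtain ⟨D', rfl⟩ : ∃ D', D = D' + 1 := ⟨D - 1, by omega⟩
      rw [Nat.add_sub_cancel]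
      ring
    have hjy : j ≤ y := by omega
    have h1 : Tendsto (fun m : ℕ => (((m.choose j : ℝ) /
        ((D * m + 0).descFactorial y : ℝ) : ℝ) : ℂ)) atTop
        (𝓝 (((1 / (D : ℝ)) ^ j * 0 ^ (y - j) / j.factorial : ℝ) : ℂ)) :=
      (Complex.continuous_ofReal.tendsto _).comp (lim_ratio D hD 0 j y hjy)
    have h2 := (hb2 E).comp (tendsto_sub_atTop_nat j)
    have h3 := h1.mul h2
    have h4 : ((((1 / (D : ℝ)) ^ j * 0 ^ (y - j) / j.factorial : ℝ) : ℂ)) *
        (if wt i₀ E = 0 then Λ else 0) = Λ / j.factorial * ∏ b ∈ B, ω b ^ k b := by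
      by_cases hall : ∀ b ∈ B, k b ≠ 0 → b = Finsupp.single i₀ (D - 1)
      · have e1 : E = Finsupp.single i₀ ((D - 1) * j) := by
          rw [hE, ← hk'.1, mul_sum, Finsupp.single_finsetSum]
          refine sum_congr rfl fun b hb => ?_
          by_cases hkb : k b = 0
          · rw [hkb, zero_smul, mul_zero, Finsupp.single_zero]
          · have h5 : k b • b = k b • Finsupp.single i₀ (D - 1) := by
              rw [← hall b hb hkb]
            rw [h5, Finsupp.smul_single, smul_eq_mul, mul_comm]
        have e2 : wt i₀ E = 0 := by rw [e1, wt_single]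
        have e3 : y - j = 0 := by
          rw [hy, e1, dg_single]
          omega
        have e4 : ∏ b ∈ B, ω b ^ k b = (1 / (D : ℂ)) ^ j := by
          rw [← hk'.1, ← prod_pow_eq_pow_sum]
          refine prod_congr rfl fun b hb => ?_
          by_cases hkb : k b = 0
          · rw [hkb, pow_zero, pow_zero]
          · change (if b = Finsupp.single i₀ (D - 1) then 1 / (D : ℂ) else 0) ^ k b = _
            rw [if_pos (hall b hb hkb)]
        rw [if_pos e2, e3, e4]
        push_cast
        ring
      · push Not at hall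
        obtain ⟨b, hb, hkb, hne⟩ := hall
        have e1 : ∏ b ∈ B, ω b ^ k b = 0 := by
          refine prod_eq_zero hb ?_
          change (if b = Finsupp.single i₀ (D - 1) then 1 / (D : ℂ) else 0) ^ k b = 0
          rw [if_neg hne, zero_pow hkb]
        rw [e1, mul_zero]
        by_cases hw : wt i₀ E = 0
        · have e2 : y - j ≠ 0 := by
            have hwb : wt i₀ b = 0 := by
              rw [hE, wt_sum] at hw
              have := (sum_eq_zero_iff.1 hw) b hb
              rw [wt_smul] at this
              rcases Nat.mul_eq_zero.1 this with h5 | h5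
              · exact absurd h5 hkb
              · exact h5
            have hdb : dg b < D - 1 := by
              have h5 := hB b hb
              by_contra hcon
              have h6 : dg b = D - 1 := by omega
              exact hne (by rw [eq_single_of_wt hwb, h6])
            have h7 : dg E < (D - 1) * j := by
              rw [hE, dg_sum, ← hk'.1, mul_sum]
              refine sum_lt_sum (fun b' hb' => ?_) ⟨b, hb, ?_⟩
              · rw [dg_smul, mul_comm]
                exact Nat.mul_le_mul_right _ (by have := hB b' hb'; omega)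
              · rw [dg_smul, mul_comm]
                exact Nat.mul_lt_mul_of_pos_right hdb (Nat.pos_of_ne_zero hkb)
            omega
          rw [zero_pow e2]
          simp
        · rw [if_neg hw, mul_zero]
    rw [h4] at h3
    refine h3.congr' ?_
    filter_upwards [eventually_ge_atTop (j + y)] with m hm
    have hjm : j ≤ m := by omega
    have hym : y ≤ D * m := by
      have : m ≤ D * m := Nat.le_mul_of_pos_left m (by omega)
      omega
    have e1 : D * m - y = D * (m - j) + dg E := by
      obtain ⟨t, rfl⟩ : ∃ t, m = j + t := ⟨m - j, by omega⟩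
      rw [Nat.add_sub_cancel_left, mul_add]
      have : dg E ≤ D * j := by omega
      omega
    have e2 := Nat.factorial_mul_descFactorial hym
    rw [e1] at e2
    have e3 : ((D * (m - j) + dg E).factorial : ℂ) * ((D * m).descFactorial y : ℂ) =
        ((D * m).factorial : ℂ) := by exact_mod_cast e2
    have e4 : ((D * (m - j) + dg E).factorial : ℂ) ≠ 0 := by
      exact_mod_cast (D * (m - j) + dg E).factorial_ne_zero
    have e5 : ((D * m).descFactorial y : ℂ) ≠ 0 := by
      have : (D * m).descFactorial y ≠ 0 := by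
        rw [Ne, Nat.descFactorial_eq_zero_iff_lt]
        omega
      exact_mod_cast this
    change _ = (m.choose j : ℂ) * _ / ((D * m).factorial : ℂ)
    rw [← e3, add_zero, Function.comp_apply, ← hE]
    push_cast
    field_simp

end Pool.Agent.NH47.FC
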