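import Pool.Agent.NH47.FC.Vert

set_option autoImplicit false

/-!
# The factorial functional: asymptotics for leading forms dominated by a power of one variable
-/

namespace Pool.Agent.NH47.FC

open Finset Filter Topology

variable {n : ℕ}

lemma fac_of_wt_one {i₀ : Fin n} {D : ℕ} {a : Fin n →₀ ℕ} (hd : dg a = D) (hw : wt i₀ a = 1) :
    fac a = (D - 1).factorial := by
  have h1 : a i₀ = D - 1 := by
    have := dg_eq i₀ a
    omega
  unfold fac
  rw [← mul_prod_erase univ _ (mem_univ i₀), h1, prod_eq_one, mul_one]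
  intro i hi
  have h2 : a i ≤ 1 := by
    rw [← hw]
    exact single_le_sum (f := fun i => a i) (fun _ _ => Nat.zero_le _) hi
  have h3 : a i = 0 ∨ a i = 1 := by omega
  rcases h3 with h | h <;> rw [h] <;> rfl

/-- the ratios of the geometric series -/
noncomputable def zz (i₀ : Fin n) (D : ℕ) (h : (Fin n →₀ ℕ) → ℂ) (a : Fin n →₀ ℕ) : ℂ :=
  h a / D * 0 ^ (wt i₀ a - 1)

lemma wt_pos {i₀ : Fin n} {D : ℕ} {A : Finset (Fin n →₀ ℕ)} {h : (Fin n →₀ ℕ) → ℂ}
    (H : Top i₀ D A h) {a : Fin n →₀ ℕ} (ha : a ∈ A) : 1 ≤ wt i₀ a := by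
  by_contra hc
  have h0 : wt i₀ a = 0 := by omega
  apply H.ne a ha
  rw [eq_single_of_wt h0, H.dg a ha]

lemma zz_lt {i₀ : Fin n} {D : ℕ} {A : Finset (Fin n →₀ ℕ)} {h : (Fin n →₀ ℕ) → ℂ}
    (H : Top i₀ D A h) {a : Fin n →₀ ℕ} (ha : a ∈ A) : ‖zz i₀ D h a‖ < 1 := by
  unfold zz
  by_cases hw : wt i₀ a = 1
  · rw [hw, Nat.sub_self, pow_zero, mul_one, norm_div, Complex.norm_natCast]
    have hD : (0 : ℝ) < D := by exact_mod_cast H.D1
    rw [div_lt_one hD]
    have h1 := H.lt a ha
    rw [fac_of_wt_one (H.dg a ha) hw] at h1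
    have h2 : D.factorial = D * (D - 1).factorial :=
      (Nat.mul_factorial_pred (by have := H.D1; omega)).symm
    rw [h2] at h1
    push_cast at h1
    have h3 : (0 : ℝ) < ((D - 1).factorial : ℝ) := by exact_mod_cast Nat.factorial_pos _
    exact lt_of_mul_lt_mul_right h1 h3.le
  · have h1 := wt_pos H ha
    have h2 : wt i₀ a - 1 ≠ 0 := by omega
    rw [zero_pow h2, mul_zero, norm_zero]
    exact one_pos

lemma level1 {i₀ : Fin n} {D : ℕ} {A : Finset (Fin n →₀ ℕ)} {h : (Fin n →₀ ℕ) → ℂ}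
    (H : Top i₀ D A h) :
    ∃ (C : ℝ) (Λ : ℂ), 0 ≤ C ∧ Λ ≠ 0 ∧
      (∀ (m : ℕ) (b : Fin n →₀ ℕ), ‖L (FF i₀ D A h ^ m * MvPolynomial.monomial b 1)‖ ≤
        C * (D * m + dg b).factorial) ∧
      (∀ b : Fin n →₀ ℕ, Tendsto (fun m : ℕ =>
        L (FF i₀ D A h ^ m * MvPolynomial.monomial b 1) / ((D * m + dg b).factorial : ℂ)) atTop
          (𝓝 (if wt i₀ b = 0 then Λ else 0))) := by
  classical
  have hD0 : (D : ℂ) ≠ 0 := by
    have := H.D1
    exact_mod_cast (by omega : D ≠ 0)
  -- the ratios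
  let r : (Fin n →₀ ℕ) → ℝ := fun a => ‖h a‖ / mu a
  have hr0 : ∀ a, 0 ≤ r a := fun a => by
    change 0 ≤ ‖h a‖ / mu a
    positivity
  have hr1 : ∀ a ∈ A, r a < 1 := by
    intro a ha
    have hmu : (0 : ℝ) < mu a := by exact_mod_cast mu_pos a
    change ‖h a‖ / mu a < 1
    rw [div_lt_one hmu]
    have h1 := H.lt a ha
    have h2 := fac_mul_mu a
    rw [H.dg a ha] at h2
    rw [← h2] at h1
    push_cast at h1
    have h3 : (0 : ℝ) < fac a := by exact_mod_cast fac_pos a
    rw [mul_comm (fac a : ℝ)] at h1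
    exact lt_of_mul_lt_mul_right h1 h3.le
  have hrs := gsum A (fun a j => r a ^ j) (fun a ha => by
    have := summable_geometric_of_lt_one (hr0 a) (hr1 a ha)
    refine this.congr fun j => ?_
    rw [norm_pow, Real.norm_of_nonneg (hr0 a)])
  set bd : ℕ → ℝ := fun s => ∑ k ∈ A.piAntidiag s, ∏ a ∈ A, r a ^ k a with hbd
  have hbd0 : ∀ s, 0 ≤ bd s := fun s => sum_nonneg fun k _ => prod_nonneg fun a _ =>
    pow_nonneg (hr0 a) _
  have hbs : Summable bd := by
    refine hrs.1.congr fun s => ?_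
    exact Real.norm_of_nonneg (hbd0 s)
  -- the terms
  have hterm : ∀ (b : Fin n →₀ ℕ) (m s : ℕ), s ≤ m → ∀ k ∈ A.piAntidiag s,
      ‖((m.choose s : ℂ) * (Nat.multinomial A k * ∏ a ∈ A, h a ^ k a)) *
        (fac (EE i₀ D A b m s k) : ℂ)‖ ≤ (∏ a ∈ A, r a ^ k a) * (D * m + dg b).factorial := by
    intro b m s hs k hk
    have h1 := dom H.dg H.ne b hs hk
    have h2 : (fac (EE i₀ D A b m s k) : ℝ) * (m.choose s * (Nat.multinomial A k *
        ∏ a ∈ A, (mu a : ℝ) ^ k a)) ≤ (D * m + dg b).factorial := by exact_mod_cast h1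
    rw [norm_mul, norm_mul, norm_mul, norm_prod, Complex.norm_natCast, Complex.norm_natCast,
      Complex.norm_natCast]
    simp only [norm_pow]
    have h3 : ∏ a ∈ A, ‖h a‖ ^ k a = (∏ a ∈ A, r a ^ k a) * ∏ a ∈ A, (mu a : ℝ) ^ k a := by
      rw [← prod_mul_distrib]
      refine prod_congr rfl fun a _ => ?_
      have hmu : (mu a : ℝ) ≠ 0 := by exact_mod_cast (mu_pos a).ne'
      change ‖h a‖ ^ k a = (‖h a‖ / mu a) ^ k a * (mu a : ℝ) ^ k a
      rw [← mul_pow, div_mul_cancel₀ _ hmu]
    rw [h3]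
    have h4 : 0 ≤ ∏ a ∈ A, r a ^ k a := prod_nonneg fun a _ => pow_nonneg (hr0 a) _
    calc _ = (∏ a ∈ A, r a ^ k a) * ((fac (EE i₀ D A b m s k) : ℝ) *
          (m.choose s * (Nat.multinomial A k * ∏ a ∈ A, (mu a : ℝ) ^ k a))) := by ring
      _ ≤ _ := mul_le_mul_of_nonneg_left h2 h4
  set Λ : ℂ := ∏ a ∈ A, ∑' j : ℕ, zz i₀ D h a ^ j with hΛ
  have hzs := gsum A (fun a j => zz i₀ D h a ^ j) (fun a ha => by
    have := summable_geometric_of_lt_one (norm_nonneg _) (zz_lt H ha)
    refine this.congr fun j => ?_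
    rw [norm_pow])
  refine ⟨∑' s, bd s, Λ, tsum_nonneg hbd0, ?_, ?_, ?_⟩
  · rw [hΛ, prod_ne_zero_iff]
    intro a ha
    rw [tsum_geometric_of_norm_lt_one (zz_lt H ha)]
    refine inv_ne_zero fun h0 => ?_
    have h1 : zz i₀ D h a = 1 := (sub_eq_zero.1 h0).symm
    have h2 := zz_lt H ha
    rw [h1, norm_one] at h2
    exact lt_irrefl _ h2
  · intro m b
    rw [expandF]
    refine (norm_sum_le _ _).trans ?_
    have h1 : ∀ s ∈ range (m + 1), ‖∑ k ∈ A.piAntidiag s,
        ((m.choose s : ℂ) * (Nat.multinomial A k * ∏ a ∈ A, h a ^ k a)) *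
          (fac (EE i₀ D A b m s k) : ℂ)‖ ≤ bd s * (D * m + dg b).factorial := by
      intro s hs
      rw [mem_range] at hs
      refine (norm_sum_le _ _).trans ((sum_le_sum fun k hk =>
        hterm b m s (by omega) k hk).trans (le_of_eq ?_))
      rw [← sum_mul]
    refine (sum_le_sum h1).trans ?_
    rw [← sum_mul]
    exact mul_le_mul_of_nonneg_right (hbs.sum_le_tsum _ fun s _ => hbd0 s) (Nat.cast_nonneg _)
  · intro b
    let Tm : ℕ → ℕ → ℂ := fun m s => if s ≤ m then ∑ k ∈ A.piAntidiag s,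
        ((m.choose s : ℂ) * (Nat.multinomial A k * ∏ a ∈ A, h a ^ k a)) *
          (fac (EE i₀ D A b m s k) : ℂ) / ((D * m + dg b).factorial : ℂ) else 0
    have h1 : ∀ m : ℕ, L (FF i₀ D A h ^ m * MvPolynomial.monomial b 1) /
        ((D * m + dg b).factorial : ℂ) = ∑' s, Tm m s := by
      intro m
      rw [tsum_eq_sum (s := range (m + 1)), expandF, sum_div]
      · refine sum_congr rfl fun s hs => ?_
        rw [mem_range] at hs
        change _ = if s ≤ m then _ else _
        rw [if_pos (by omega), sum_div]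
      · intro s hs
        rw [mem_range] at hs
        change (if s ≤ m then _ else _) = _
        rw [if_neg (by omega)]
    simp only [h1]
    have hlim : (if wt i₀ b = 0 then Λ else 0) =
        ∑' s : ℕ, (if wt i₀ b = 0 then ∑ k ∈ A.piAntidiag s, ∏ a ∈ A, zz i₀ D h a ^ k a else 0) := by
      split_ifs
      · rw [hzs.2]
      · rw [tsum_zero]
    rw [hlim]
    refine tendsto_tsum_of_dominated_convergence (bound := bd) hbs ?_ ?_
    · intro s
      -- the limit of one term
      have hk : ∀ k ∈ A.piAntidiag s, Tendsto (fun m : ℕ =>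
          ((m.choose s : ℂ) * (Nat.multinomial A k * ∏ a ∈ A, h a ^ k a)) *
          (fac (EE i₀ D A b m s k) : ℂ) / ((D * m + dg b).factorial : ℂ)) atTop
          (𝓝 (if wt i₀ b = 0 then ∏ a ∈ A, zz i₀ D h a ^ k a else 0)) := by
        intro k hk
        set y := wt i₀ (∑ a ∈ A, k a • a + b) with hy
        have hk' := mem_piAntidiag.1 hk
        have hy1 : y = ∑ a ∈ A, k a * wt i₀ a + wt i₀ b := by
          rw [hy, wt_add, wt_sum]
          congr 1
          exact sum_congr rfl fun a _ => wt_smul _ _ _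
        have hy2 : s ≤ ∑ a ∈ A, k a * wt i₀ a := by
          rw [← hk'.1]
          refine sum_le_sum fun a ha => ?_
          calc k a = k a * 1 := (mul_one _).symm
            _ ≤ k a * wt i₀ a := Nat.mul_le_mul_left _ (wt_pos H ha)
        have hys : s ≤ y := by omega
        have h2 := lim_ratio D H.D1 (dg b) s y hys
        have h3 : Tendsto (fun m : ℕ => (((m.choose s : ℝ) /
            ((D * m + dg b).descFactorial y : ℝ) : ℝ) : ℂ)) atTop
            (𝓝 (((1 / (D : ℝ)) ^ s * 0 ^ (y - s) / s.factorial : ℝ) : ℂ)) :=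
          (Complex.continuous_ofReal.tendsto _).comp h2
        have h4 := h3.const_mul ((Nat.multinomial A k * ∏ a ∈ A, h a ^ k a) * (Wf i₀ A b k : ℂ))
        have h5 : ((Nat.multinomial A k * ∏ a ∈ A, h a ^ k a) * (Wf i₀ A b k : ℂ)) *
            (((1 / (D : ℝ)) ^ s * 0 ^ (y - s) / s.factorial : ℝ) : ℂ) =
            if wt i₀ b = 0 then ∏ a ∈ A, zz i₀ D h a ^ k a else 0 := by
          split_ifs with hb
          · have h6 := coef_id H.dg H.ne b hb hk
            rw [← hy] at h6
            have h7 : (Nat.multinomial A k : ℂ) * Wf i₀ A b k * 0 ^ (y - s) =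
                s.factorial * ∏ a ∈ A, (0 : ℂ) ^ ((wt i₀ a - 1) * k a) := by
              exact_mod_cast congrArg (fun t : ℝ => (t : ℂ)) h6
            have h8 : (s.factorial : ℂ) ≠ 0 := by exact_mod_cast s.factorial_ne_zero
            have h9 : ∏ a ∈ A, zz i₀ D h a ^ k a = (∏ a ∈ A, h a ^ k a) * (1 / (D : ℂ)) ^ s *
                ∏ a ∈ A, (0 : ℂ) ^ ((wt i₀ a - 1) * k a) := by
              rw [← hk'.1, ← prod_pow_eq_pow_sum, ← prod_mul_distrib, ← prod_mul_distrib]
              refine prod_congr rfl fun a _ => ?_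
              unfold zz
              rw [pow_mul, mul_pow, div_eq_mul_one_div, mul_pow]
            rw [h9]
            push_cast
            calc _ = ((Nat.multinomial A k : ℂ) * Wf i₀ A b k * 0 ^ (y - s)) *
                  ((∏ a ∈ A, h a ^ k a) * (1 / (D : ℂ)) ^ s) / s.factorial := by ring
              _ = _ := by
                rw [h7]
                field_simp
          · have h6 : y - s ≠ 0 := by omega
            rw [zero_pow h6]
            simp
        rw [h5] at h4
        refine h4.congr' ?_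
        filter_upwards [eventually_ge_atTop (s + y)] with m hm
        have h6 := fac_EE (i₀ := i₀) H.dg b (show s ≤ m by omega) hk
        rw [← hy] at h6
        have hN : y ≤ D * m + dg b := by
          have := H.D1
          nlinarith
        have h7 : ((D * m + dg b).descFactorial y : ℂ) ≠ 0 := by
          have : (D * m + dg b).descFactorial y ≠ 0 := by
            rw [Ne, Nat.descFactorial_eq_zero_iff_lt]
            omega
          exact_mod_cast this
        have h8 : ((D * m + dg b).factorial : ℂ) ≠ 0 := by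
          exact_mod_cast (D * m + dg b).factorial_ne_zero
        have h9 : (fac (EE i₀ D A b m s k) : ℂ) * ((D * m + dg b).descFactorial y : ℂ) =
            (Wf i₀ A b k : ℂ) * ((D * m + dg b).factorial : ℂ) := by exact_mod_cast h6
        push_cast
        rw [eq_div_iff h8, mul_assoc, mul_assoc, mul_comm _ (fac (EE i₀ D A b m s k) : ℂ)]
        rw [div_mul_eq_mul_div, mul_div_assoc', mul_div_assoc', div_eq_iff h7]
        linear_combination (-(Nat.multinomial A k : ℂ) * (∏ a ∈ A, h a ^ k a) *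
          (m.choose s : ℂ)) * h9
      have h2 : Tendsto (fun m : ℕ => ∑ k ∈ A.piAntidiag s,
          ((m.choose s : ℂ) * (Nat.multinomial A k * ∏ a ∈ A, h a ^ k a)) *
          (fac (EE i₀ D A b m s k) : ℂ) / ((D * m + dg b).factorial : ℂ)) atTop
          (𝓝 (∑ k ∈ A.piAntidiag s, (if wt i₀ b = 0 then ∏ a ∈ A, zz i₀ D h a ^ k a else 0))) :=
        tendsto_finsetSum _ hk
      have h3 : ∑ k ∈ A.piAntidiag s, (if wt i₀ b = 0 then ∏ a ∈ A, zz i₀ D h a ^ k a else 0) =
          if wt i₀ b = 0 then ∑ k ∈ A.piAntidiag s, ∏ a ∈ A, zz i₀ D h a ^ k a else 0 := by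
        split_ifs
        · rfl
        · rw [sum_const_zero]
      rw [h3] at h2
      refine h2.congr' ?_
      filter_upwards [eventually_ge_atTop s] with m hm
      change _ = if s ≤ m then _ else _
      rw [if_pos hm]
    · refine Eventually.of_forall fun m s => ?_
      change ‖if s ≤ m then _ else _‖ ≤ _
      split_ifs with hsm
      · refine (norm_sum_le _ _).trans (sum_le_sum fun k hk => ?_)
        have hN : (0 : ℝ) < (D * m + dg b).factorial := by
          exact_mod_cast Nat.factorial_pos _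
        rw [norm_div, Complex.norm_natCast, div_le_iff₀ hN]
        exact hterm b m s hsm k hk
      · rw [norm_zero]
        exact hbd0 s

end Pool.Agent.NH47.FC
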