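import Pool.Agent.NH47.FC.Low

set_option autoImplicit false

/-!
# The factorial functional: monomial leading forms
-/

namespace Pool.Agent.NH47.FC

open Finset Filter Topology

variable {n : ℕ}

lemma desc_lower (t : ℕ) : ∀ N : ℕ, t ≤ N → (N : ℝ) ^ t ≤ Real.exp 1 ^ t * N.descFactorial t := by
  induction t with
  | zero => intro N _; simp
  | succ t ih =>
    intro N hN
    obtain ⟨M, rfl⟩ : ∃ M, N = M + 1 := ⟨N - 1, by omega⟩
    have hM : t ≤ M := by omega
    have h1 := ih M hM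
    have h2 : ((M + 1 : ℕ) : ℝ) ^ t ≤ Real.exp 1 * (M : ℝ) ^ t := by
      rcases Nat.eq_zero_or_pos t with h0 | h0
      · rw [h0, pow_zero, pow_zero, mul_one]
        exact Real.one_le_exp zero_le_one
      · have hM0 : (0 : ℝ) < M := by exact_mod_cast (by omega : 0 < M)
        have h3 : ((M + 1 : ℕ) : ℝ) = M * (1 / M + 1) := by
          push_cast
          field_simp
          ring
        have h4 : (1 / (M : ℝ) + 1) ^ t ≤ Real.exp 1 := by
          calc (1 / (M : ℝ) + 1) ^ t ≤ (Real.exp (1 / M)) ^ t :=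
                pow_le_pow_left₀ (by positivity) (Real.add_one_le_exp _) t
            _ = Real.exp (t * (1 / M)) := by rw [← Real.exp_nat_mul]
            _ ≤ Real.exp 1 := by
              rw [Real.exp_le_exp, mul_one_div, div_le_one hM0]
              exact_mod_cast hM
        rw [h3, mul_pow, mul_comm (Real.exp 1)]
        exact mul_le_mul_of_nonneg_left h4 (by positivity)
    rw [Nat.succ_descFactorial_succ]
    push_cast at h2 ⊢
    have hM1 : (0 : ℝ) ≤ (M : ℝ) + 1 := by positivity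
    calc ((M : ℝ) + 1) ^ (t + 1) = ((M : ℝ) + 1) * ((M : ℝ) + 1) ^ t := by rw [pow_succ]; ring
      _ ≤ ((M : ℝ) + 1) * (Real.exp 1 * (M : ℝ) ^ t) := mul_le_mul_of_nonneg_left h2 hM1
      _ ≤ ((M : ℝ) + 1) * (Real.exp 1 * (Real.exp 1 ^ t * M.descFactorial t)) :=
        mul_le_mul_of_nonneg_left (mul_le_mul_of_nonneg_left h1 (Real.exp_pos 1).le) hM1
      _ = _ := by rw [pow_succ]; ring

lemma fac_mul_pow (N u M : ℕ) (h : N + u ≤ M) : (N + u).factorial ≤ N.factorial * M ^ u := by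
  have h1 := Nat.factorial_mul_ascFactorial N u
  rw [← h1]
  refine Nat.mul_le_mul_left _ ?_
  rw [Nat.ascFactorial_eq_prod_range]
  calc ∏ i ∈ range u, (N + 1 + i) ≤ ∏ _i ∈ range u, M := prod_le_prod' fun i hi => by
        rw [mem_range] at hi
        omega
    _ = M ^ u := by rw [prod_const, card_range]

lemma mono_bound {D : ℕ} (K E : Fin n →₀ ℕ) (hK : dg K = D) (hD : 1 ≤ D) {m j : ℕ} (hjm : j ≤ m)
    (hE : dg E ≤ (D - 1) * j) :
    (m.choose j : ℝ) * (fac ((m - j) • K + E) : ℝ) / (fac (m • K) : ℝ) ≤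
      (((D : ℝ) * Real.exp 1) ^ D) ^ j / j.factorial := by
  rcases Nat.eq_zero_or_pos m with hm | hm
  · subst hm
    have hj : j = 0 := by omega
    subst hj
    have hE0 : E = 0 := by
      have h1 : dg E = 0 := by omega
      ext i
      exact (sum_eq_zero_iff.1 h1) i (mem_univ i)
    subst hE0
    simp [fac]
  have hDj : (D - 1) * j + j = D * j := by
    obtain ⟨D', rfl⟩ : ∃ D', D = D' + 1 := ⟨D - 1, by omega⟩
    rw [Nat.add_sub_cancel]
    ring
  have hEi : ∀ i, E i ≤ dg E := fun i =>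
    single_le_sum (f := fun i => E i) (fun _ _ => Nat.zero_le _) (mem_univ i)
  have hKi : ∀ i, K i ≤ D := fun i => by
    rw [← hK]
    exact single_le_sum (f := fun i => K i) (fun _ _ => Nat.zero_le _) (mem_univ i)
  -- upper bound for the numerator
  have h1 : fac ((m - j) • K + E) ≤ fac ((m - j) • K) * (D * m) ^ dg E := by
    unfold fac dg
    rw [← prod_pow_eq_pow_sum, ← prod_mul_distrib]
    refine prod_le_prod' fun i _ => ?_
    rw [Finsupp.add_apply]
    refine fac_mul_pow _ _ _ ?_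
    rw [Finsupp.smul_apply, smul_eq_mul]
    have h2 : (m - j) * K i ≤ (m - j) * D := Nat.mul_le_mul_left _ (hKi i)
    have h3 := hEi i
    obtain ⟨t, rfl⟩ : ∃ t, m = j + t := ⟨m - j, by omega⟩
    rw [Nat.add_sub_cancel_left] at h2 ⊢
    have h4 : D * (j + t) = t * D + D * j := by ring
    omega
  -- lower bound for the denominator
  have hm0 : (0 : ℝ) < m := by exact_mod_cast hm
  have h2 : (fac ((m - j) • K) : ℝ) * (m : ℝ) ^ (D * j) ≤
      Real.exp 1 ^ (D * j) * (fac (m • K) : ℝ) := by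
    have h3 : ∀ i ∈ (univ : Finset (Fin n)), ((((m - j) • K) i).factorial : ℝ) *
        (m : ℝ) ^ (K i * j) ≤ Real.exp 1 ^ (K i * j) * (((m • K) i).factorial : ℝ) := by
      intro i _
      rw [Finsupp.smul_apply, Finsupp.smul_apply, smul_eq_mul, smul_eq_mul]
      have h4 : K i * j ≤ m * K i := by
        rw [mul_comm m]
        exact Nat.mul_le_mul_left _ hjm
      have h5 := desc_lower (K i * j) (m * K i) h4
      have h6 := Nat.factorial_mul_descFactorial h4
      have h7 : m * K i - K i * j = (m - j) * K i := by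
        rw [Nat.sub_mul, mul_comm (K i) j]
      rw [h7] at h6
      have h8 : (((m - j) * K i).factorial : ℝ) * ((m * K i).descFactorial (K i * j) : ℝ) =
          ((m * K i).factorial : ℝ) := by exact_mod_cast h6
      have h9 : (m : ℝ) ^ (K i * j) ≤ ((m * K i : ℕ) : ℝ) ^ (K i * j) := by
        rcases Nat.eq_zero_or_pos (K i) with h0 | h0
        · rw [h0, zero_mul, pow_zero, pow_zero]
        · refine pow_le_pow_left₀ hm0.le ?_ _
          exact_mod_cast Nat.le_mul_of_pos_right m h0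
      rw [← h8]
      calc (((m - j) * K i).factorial : ℝ) * (m : ℝ) ^ (K i * j) ≤
          (((m - j) * K i).factorial : ℝ) *
            (Real.exp 1 ^ (K i * j) * (m * K i).descFactorial (K i * j)) :=
            mul_le_mul_of_nonneg_left (h9.trans h5) (Nat.cast_nonneg _)
        _ = _ := by ring
    have h4 := prod_le_prod (fun i _ => by positivity) h3
    rw [prod_mul_distrib, prod_mul_distrib, prod_pow_eq_pow_sum, prod_pow_eq_pow_sum,
      ← sum_mul] at h4
    unfold fac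
    push_cast
    have h5 : ∑ i, K i = D := hK
    rw [h5] at h4
    exact h4
  have hf0 : (0 : ℝ) < fac (m • K) := by exact_mod_cast fac_pos _
  have hf1 : (0 : ℝ) < fac ((m - j) • K) := by exact_mod_cast fac_pos _
  have hj0 : (0 : ℝ) < j.factorial := by exact_mod_cast Nat.factorial_pos _
  have hD' : (1 : ℝ) ≤ D := by exact_mod_cast hD
  have hm1 : (1 : ℝ) ≤ m := by exact_mod_cast hm
  have hc : (m.choose j : ℝ) ≤ (m : ℝ) ^ j / j.factorial := Nat.choose_le_pow_div j m
  have h1' : (fac ((m - j) • K + E) : ℝ) ≤ fac ((m - j) • K) * ((D : ℝ) * m) ^ dg E := by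
    exact_mod_cast h1
  rw [div_le_div_iff₀ hf0 hj0]
  have h3 : ((D : ℝ) * m) ^ dg E * (m : ℝ) ^ j ≤ (D : ℝ) ^ (D * j) * (m : ℝ) ^ (D * j) := by
    rw [mul_pow, mul_assoc, ← pow_add]
    refine mul_le_mul (pow_le_pow_right₀ hD' (by omega)) (pow_le_pow_right₀ hm1 (by omega))
      (by positivity) (by positivity)
  calc (m.choose j : ℝ) * (fac ((m - j) • K + E) : ℝ) * j.factorial ≤
        ((m : ℝ) ^ j / j.factorial) * (fac ((m - j) • K) * ((D : ℝ) * m) ^ dg E) *
          j.factorial := by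
        refine mul_le_mul_of_nonneg_right (mul_le_mul hc h1' (by positivity) (by positivity)) hj0.le
    _ = fac ((m - j) • K) * (((D : ℝ) * m) ^ dg E * (m : ℝ) ^ j) := by
        field_simp
    _ ≤ fac ((m - j) • K) * ((D : ℝ) ^ (D * j) * (m : ℝ) ^ (D * j)) :=
        mul_le_mul_of_nonneg_left h3 hf1.le
    _ = (D : ℝ) ^ (D * j) * (fac ((m - j) • K) * (m : ℝ) ^ (D * j)) := by ring
    _ ≤ (D : ℝ) ^ (D * j) * (Real.exp 1 ^ (D * j) * (fac (m • K) : ℝ)) :=
        mul_le_mul_of_nonneg_left h2 (by positivity)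
    _ = (((D : ℝ) * Real.exp 1) ^ D) ^ j * (fac (m • K) : ℝ) := by
        rw [← pow_mul, mul_pow]; ring

lemma lim_asc (K j u : ℕ) : Tendsto (fun m : ℕ =>
    ((((m - j) * K + 1).ascFactorial u : ℕ) : ℝ) / (m : ℝ) ^ u) atTop (𝓝 ((K : ℝ) ^ u)) := by
  have h1 : ∀ β : ℝ, Tendsto (fun m : ℕ => (K : ℝ) + β / m) atTop (𝓝 ((K : ℝ) + 0)) := fun β =>
    tendsto_const_nhds.add (tendsto_const_nhds.div_atTop tendsto_natCast_atTop_atTop)
  have h2 : Tendsto (fun m : ℕ => ∏ i ∈ range u,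
      ((K : ℝ) + ((1 : ℝ) + i - j * K) / m)) atTop (𝓝 (∏ _i ∈ range u, ((K : ℝ) + 0))) :=
    tendsto_finsetProd _ fun i _ => h1 _
  rw [prod_const, card_range, add_zero] at h2
  refine h2.congr' ?_
  filter_upwards [eventually_ge_atTop (j + 1)] with m hm
  have hm0 : (m : ℝ) ≠ 0 := by exact_mod_cast (by omega : m ≠ 0)
  rw [Nat.ascFactorial_eq_prod_range]
  push_cast
  have h3 : ∏ _i ∈ range u, (m : ℝ) = (m : ℝ) ^ u := by rw [prod_const, card_range]
  rw [← h3, ← prod_div_distrib]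
  refine prod_congr rfl fun i _ => ?_
  rw [Nat.cast_sub (by omega)]
  field_simp
  ring

lemma lim_choose (j : ℕ) : Tendsto (fun m : ℕ => (m.choose j : ℝ) / (m : ℝ) ^ j) atTop
    (𝓝 (1 / j.factorial)) := by
  have h1 : Tendsto (fun m : ℕ => ∏ i ∈ range j, ((1 : ℝ) - i / m)) atTop
      (𝓝 (∏ _i ∈ range j, ((1 : ℝ) - 0))) :=
    tendsto_finsetProd _ fun i _ =>
      tendsto_const_nhds.sub (tendsto_const_nhds.div_atTop tendsto_natCast_atTop_atTop)
  rw [prod_const, card_range, sub_zero, one_pow] at h1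
  have h2 := h1.div_const (j.factorial : ℝ)
  refine h2.congr' ?_
  filter_upwards [eventually_ge_atTop (j + 1)] with m hm
  have hm0 : (m : ℝ) ≠ 0 := by exact_mod_cast (by omega : m ≠ 0)
  have h4 := Nat.descFactorial_eq_factorial_mul_choose m j
  have h5 : (m.descFactorial j : ℝ) = (m : ℝ) ^ j * ∏ i ∈ range j, ((1 : ℝ) - i / m) := by
    have h3 : ∏ _i ∈ range j, (m : ℝ) = (m : ℝ) ^ j := by rw [prod_const, card_range]
    rw [Nat.descFactorial_eq_prod_range, ← h3, ← prod_mul_distrib]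
    push_cast
    refine prod_congr rfl fun i hi => ?_
    rw [mem_range] at hi
    rw [Nat.cast_sub (by omega)]
    field_simp
  have h6 : (j.factorial : ℝ) ≠ 0 := by exact_mod_cast j.factorial_ne_zero
  have h7 : (j.factorial : ℝ) * m.choose j = (m : ℝ) ^ j * ∏ i ∈ range j, ((1 : ℝ) - i / m) := by
    rw [← h5, h4]
    push_cast
    ring
  rw [div_eq_div_iff h6 (pow_ne_zero _ hm0)]
  linarith

/-- the value of a monomial at the exponent `K` -/
def ev (K E : Fin n →₀ ℕ) : ℝ := ∏ i, (K i : ℝ) ^ E i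

lemma ev_self (K : Fin n →₀ ℕ) : ev K K ≠ 0 := by
  unfold ev
  rw [prod_ne_zero_iff]
  intro i _
  by_cases h : K i = 0
  · rw [h, pow_zero]
    exact one_ne_zero
  · exact pow_ne_zero _ (by exact_mod_cast h)

lemma mono_lim {D : ℕ} (K E : Fin n →₀ ℕ) (hK : dg K = D) (hD : 1 ≤ D) (j : ℕ)
    (hE : dg E ≤ (D - 1) * j) :
    Tendsto (fun m : ℕ => (m.choose j : ℝ) * (fac ((m - j) • K + E) : ℝ) / (fac (m • K) : ℝ))
      atTop (𝓝 (1 / j.factorial * (ev K E / ev K K ^ j * 0 ^ ((D - 1) * j - dg E)))) := by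
  have hDj : (D - 1) * j + j = D * j := by
    obtain ⟨D', rfl⟩ : ∃ D', D = D' + 1 := ⟨D - 1, by omega⟩
    rw [Nat.add_sub_cancel]
    ring
  have h1 : Tendsto (fun m : ℕ => ∏ i, (((((m - j) * K i + 1).ascFactorial (E i) : ℕ) : ℝ) /
      (m : ℝ) ^ E i)) atTop (𝓝 (ev K E)) := tendsto_finsetProd _ fun i _ => lim_asc _ _ _
  have h2 : Tendsto (fun m : ℕ => ∏ i, (((((m - j) * K i + 1).ascFactorial (K i * j) : ℕ) : ℝ) /
      (m : ℝ) ^ (K i * j))) atTop (𝓝 (ev K K ^ j)) := by
    have e1 : ev K K ^ j = ∏ i, (K i : ℝ) ^ (K i * j) := by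
      unfold ev
      rw [← prod_pow]
      exact prod_congr rfl fun i _ => (pow_mul _ _ _).symm
    rw [e1]
    exact tendsto_finsetProd _ fun i _ => lim_asc _ _ _
  have h3 : Tendsto (fun m : ℕ => (1 / (m : ℝ)) ^ ((D - 1) * j - dg E)) atTop
      (𝓝 (0 ^ ((D - 1) * j - dg E))) :=
    (tendsto_const_nhds.div_atTop tendsto_natCast_atTop_atTop).pow _
  have h4 := (lim_choose j).mul ((h1.div h2 (pow_ne_zero _ (ev_self K))).mul h3)
  refine h4.congr' ?_
  filter_upwards [eventually_ge_atTop (j + 1)] with m hm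
  have hm0 : (m : ℝ) ≠ 0 := by exact_mod_cast (by omega : m ≠ 0)
  have hjm : j ≤ m := by omega
  have e1 : fac ((m - j) • K + E) = fac ((m - j) • K) *
      ∏ i, ((m - j) * K i + 1).ascFactorial (E i) := by
    unfold fac
    rw [← prod_mul_distrib]
    refine prod_congr rfl fun i _ => ?_
    rw [Finsupp.add_apply, Finsupp.smul_apply, smul_eq_mul, Nat.factorial_mul_ascFactorial]
  have e2 : fac (m • K) = fac ((m - j) • K) *
      ∏ i, ((m - j) * K i + 1).ascFactorial (K i * j) := by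
    unfold fac
    rw [← prod_mul_distrib]
    refine prod_congr rfl fun i _ => ?_
    rw [Finsupp.smul_apply, Finsupp.smul_apply, smul_eq_mul, smul_eq_mul,
      Nat.factorial_mul_ascFactorial]
    congr 1
    rw [Nat.sub_mul, mul_comm (K i) j, Nat.sub_add_cancel (Nat.mul_le_mul_right _ hjm)]
  have hf1 : (fac ((m - j) • K) : ℝ) ≠ 0 := by exact_mod_cast (fac_pos _).ne'
  have hden : (∏ i, ((((m - j) * K i + 1).ascFactorial (K i * j) : ℕ) : ℝ)) ≠ 0 := by
    rw [prod_ne_zero_iff]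
    intro i _
    exact_mod_cast (Nat.ascFactorial_pos _ _).ne'
  simp only [Pi.div_apply]
  rw [e1, e2, prod_div_distrib, prod_div_distrib, prod_pow_eq_pow_sum, prod_pow_eq_pow_sum,
    ← sum_mul]
  have e3 : ∑ i, K i = D := hK
  have e4 : ∑ i, E i = dg E := rfl
  rw [e3, e4]
  push_cast
  push_cast at hden
  have e5 : (m : ℝ) ^ (D * j) = (m : ℝ) ^ ((D - 1) * j - dg E) * (m : ℝ) ^ dg E * (m : ℝ) ^ j := by
    rw [← pow_add, ← pow_add]
    congr 1
    omega
  rw [e5, one_div, inv_pow]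
  field_simp

/-- **The monomial case.** -/
theorem mono {D : ℕ} (K : Fin n →₀ ℕ) (hK : dg K = D) (hD : 1 ≤ D) (B : Finset (Fin n →₀ ℕ))
    (g : (Fin n →₀ ℕ) → ℂ) (hB : ∀ b ∈ B, dg b < D) :
    ∃ Λ : ℂ, Λ ≠ 0 ∧ Tendsto (fun m : ℕ =>
      L ((MvPolynomial.monomial K 1 + ∑ b ∈ B, MvPolynomial.monomial b (g b)) ^ m) /
        (fac (m • K) : ℂ)) atTop (𝓝 Λ) := by
  classical
  let ω : (Fin n →₀ ℕ) → ℂ := fun b => ((ev K b / ev K K * 0 ^ (D - 1 - dg b) : ℝ) : ℂ)
  refine ⟨1 * Complex.exp (∑ b ∈ B, g b * ω b), mul_ne_zero one_ne_zero (Complex.exp_ne_zero _),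
    ?_⟩
  let Y : ℕ → ℕ → ((Fin n →₀ ℕ) → ℕ) → ℂ := fun m j k => (((m.choose j : ℝ) *
    (fac ((m - j) • K + ∑ b ∈ B, k b • b) : ℝ) / (fac (m • K) : ℝ) : ℝ) : ℂ)
  have hdg : ∀ j, ∀ k ∈ B.piAntidiag j, dg (∑ b ∈ B, k b • b) ≤ (D - 1) * j := by
    intro j k hk
    rw [dg_sum, ← (mem_piAntidiag.1 hk).1, mul_sum]
    refine sum_le_sum fun b hb => ?_
    rw [dg_smul, mul_comm]
    exact Nat.mul_le_mul_right _ (by have := hB b hb; omega)
  have hmain := exp_lemma B g ω 1 (((D : ℝ) * Real.exp 1) ^ D) 1 Y zero_le_one (by positivity) ?_ ?_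
  · refine hmain.congr fun m => ?_
    rw [expandL, sum_div]
    refine sum_congr rfl fun j _ => ?_
    rw [sum_div]
    refine sum_congr rfl fun k _ => ?_
    rw [MvPolynomial.monomial_pow, one_pow, MvPolynomial.monomial_mul, L_monomial]
    change _ * (((m.choose j : ℝ) * _ / _ : ℝ) : ℂ) = _
    push_cast
    ring
  · intro m j hjm k hk
    change ‖(((m.choose j : ℝ) * _ / _ : ℝ) : ℂ)‖ ≤ _
    rw [Complex.norm_real, Real.norm_of_nonneg (by positivity), one_mul]
    exact mono_bound K _ hK hD hjm (hdg j k hk)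
  · intro j k hk
    have hk' := mem_piAntidiag.1 hk
    have h1 := mono_lim K (∑ b ∈ B, k b • b) hK hD j (hdg j k hk)
    have h2 : Tendsto (fun m => Y m j k) atTop (𝓝 (((1 / j.factorial * (ev K (∑ b ∈ B, k b • b) /
        ev K K ^ j * 0 ^ ((D - 1) * j - dg (∑ b ∈ B, k b • b))) : ℝ)) : ℂ)) :=
      (Complex.continuous_ofReal.tendsto _).comp h1
    have h3 : (((1 / j.factorial * (ev K (∑ b ∈ B, k b • b) /
        ev K K ^ j * 0 ^ ((D - 1) * j - dg (∑ b ∈ B, k b • b))) : ℝ)) : ℂ) =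
        1 / j.factorial * ∏ b ∈ B, ω b ^ k b := by
      have e1 : ev K (∑ b ∈ B, k b • b) = ∏ b ∈ B, ev K b ^ k b := by
        unfold ev
        have : ∀ i, (K i : ℝ) ^ (∑ b ∈ B, k b • b) i = ∏ b ∈ B, ((K i : ℝ) ^ b i) ^ k b := by
          intro i
          rw [Finsupp.finsetSum_apply, ← prod_pow_eq_pow_sum]
          refine prod_congr rfl fun b _ => ?_
          rw [Finsupp.smul_apply, smul_eq_mul, mul_comm, pow_mul]
        rw [prod_congr rfl fun i _ => this i, Finset.prod_comm]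
        exact prod_congr rfl fun b _ => prod_pow _ _ _
      have e2 : (D - 1) * j - dg (∑ b ∈ B, k b • b) = ∑ b ∈ B, (D - 1 - dg b) * k b := by
        have e3 : (D - 1) * j = ∑ b ∈ B, (D - 1 - dg b) * k b + dg (∑ b ∈ B, k b • b) := by
          rw [dg_sum, ← sum_add_distrib, ← hk'.1, mul_sum]
          refine sum_congr rfl fun b hb => ?_
          rw [dg_smul, mul_comm (k b) (dg b), ← Nat.add_mul, Nat.sub_add_cancel]
          have := hB b hb
          omega
        rw [e3, Nat.add_sub_cancel]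
      have e4 : ev K K ^ j = ∏ b ∈ B, ev K K ^ k b := by
        rw [prod_pow_eq_pow_sum, hk'.1]
      rw [e1, e2, e4, ← prod_div_distrib, ← prod_pow_eq_pow_sum, ← prod_mul_distrib]
      push_cast
      congr 1
      refine prod_congr rfl fun b _ => ?_
      change _ = ((ev K b / ev K K * 0 ^ (D - 1 - dg b) : ℝ) : ℂ) ^ k b
      push_cast
      rw [pow_mul, mul_pow, div_pow]
    rw [← h3]
    exact h2

end Pool.Agent.NH47.FC
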