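import Pool.Agent.NH47.FC.Lim

set_option autoImplicit false

/-!
# The factorial functional: leading forms dominated by a power of one variable
-/

namespace Pool.Agent.NH47.FC

open Finset Filter Topology

variable {n : ℕ}

/-- the degree outside of the variable `i₀` -/
def wt (i₀ : Fin n) (a : Fin n →₀ ℕ) : ℕ := ∑ i ∈ univ.erase i₀, a i

lemma wt_add (i₀ : Fin n) (s t : Fin n →₀ ℕ) : wt i₀ (s + t) = wt i₀ s + wt i₀ t := by
  simp [wt, sum_add_distrib]

lemma wt_smul (i₀ : Fin n) (c : ℕ) (s : Fin n →₀ ℕ) : wt i₀ (c • s) = c * wt i₀ s := by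
  simp [wt, mul_sum]

lemma wt_sum (i₀ : Fin n) {ι : Type*} (A : Finset ι) (f : ι → Fin n →₀ ℕ) :
    wt i₀ (∑ a ∈ A, f a) = ∑ a ∈ A, wt i₀ (f a) := by
  classical
  induction A using Finset.induction_on with
  | empty => simp [wt]
  | insert a s ha ih => rw [sum_insert ha, sum_insert ha, wt_add, ih]

lemma dg_eq (i₀ : Fin n) (a : Fin n →₀ ℕ) : dg a = a i₀ + wt i₀ a := by
  unfold dg wt
  rw [add_sum_erase univ (fun i => a i) (mem_univ i₀)]

lemma wt_single (i₀ : Fin n) (c : ℕ) : wt i₀ (Finsupp.single i₀ c) = 0 := by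
  unfold wt
  refine sum_eq_zero fun i hi => ?_
  rw [Finsupp.single_apply, if_neg (ne_of_mem_erase hi).symm]

lemma dg_single (i₀ : Fin n) (c : ℕ) : dg (Finsupp.single i₀ c) = c := by
  rw [dg_eq i₀, wt_single, add_zero, Finsupp.single_eq_same]

lemma eq_single_of_wt {i₀ : Fin n} {a : Fin n →₀ ℕ} (h : wt i₀ a = 0) :
    a = Finsupp.single i₀ (dg a) := by
  have h1 : ∀ i, i ≠ i₀ → a i = 0 := by
    intro i hi
    exact (sum_eq_zero_iff.1 h) i (mem_erase.2 ⟨hi, mem_univ i⟩)
  ext i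
  by_cases hi : i = i₀
  · subst hi
    rw [Finsupp.single_eq_same, dg_eq i, h, add_zero]
  · rw [h1 i hi, Finsupp.single_apply, if_neg (fun h => hi h.symm)]

lemma fac_single (i₀ : Fin n) (c : ℕ) : fac (Finsupp.single i₀ c) = c.factorial := by
  unfold fac
  rw [prod_eq_single i₀]
  · rw [Finsupp.single_eq_same]
  · intro i _ hi
    rw [Finsupp.single_apply, if_neg (fun h => hi h.symm), Nat.factorial_zero]
  · intro h
    exact absurd (mem_univ _) h

lemma mu_single (i₀ : Fin n) (c : ℕ) : mu (Finsupp.single i₀ c) = 1 := by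
  have h := fac_mul_mu (Finsupp.single i₀ c)
  rw [fac_single, dg_single] at h
  exact Nat.eq_of_mul_eq_mul_left (Nat.factorial_pos c) (by rw [h, mul_one])

/-- The leading form is `U_{i₀} ^ D` plus smaller terms. -/
structure Top (i₀ : Fin n) (D : ℕ) (A : Finset (Fin n →₀ ℕ)) (h : (Fin n →₀ ℕ) → ℂ) : Prop where
  D1 : 1 ≤ D
  dg : ∀ a ∈ A, dg a = D
  ne : ∀ a ∈ A, a ≠ Finsupp.single i₀ D
  lt : ∀ a ∈ A, ‖h a‖ * fac a < D.factorial

/-- the leading form -/
noncomputable def FF (i₀ : Fin n) (D : ℕ) (A : Finset (Fin n →₀ ℕ)) (h : (Fin n →₀ ℕ) → ℂ) :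
    MvPolynomial (Fin n) ℂ :=
  MvPolynomial.monomial (Finsupp.single i₀ D) 1 + ∑ a ∈ A, MvPolynomial.monomial a (h a)

/-- the exponents in the expansion -/
noncomputable def EE (i₀ : Fin n) (D : ℕ) (A : Finset (Fin n →₀ ℕ)) (b : Fin n →₀ ℕ) (m s : ℕ)
    (k : (Fin n →₀ ℕ) → ℕ) : Fin n →₀ ℕ :=
  (m - s) • Finsupp.single i₀ D + ∑ a ∈ A, k a • a + b

lemma expandF (i₀ : Fin n) (D : ℕ) (A : Finset (Fin n →₀ ℕ)) (h : (Fin n →₀ ℕ) → ℂ) (m : ℕ)
    (b : Fin n →₀ ℕ) :
    L (FF i₀ D A h ^ m * MvPolynomial.monomial b 1) =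
      ∑ s ∈ range (m + 1), ∑ k ∈ A.piAntidiag s,
        ((m.choose s : ℂ) * (Nat.multinomial A k * ∏ a ∈ A, h a ^ k a)) *
          (fac (EE i₀ D A b m s k) : ℂ) := by
  unfold FF
  rw [add_comm, add_pow, sum_mul, map_sum]
  refine sum_congr rfl fun s _ => ?_
  rw [expand, MvPolynomial.monomial_pow, one_pow]
  have h2 : ((m.choose s : ℕ) : MvPolynomial (Fin n) ℂ) =
      MvPolynomial.C ((m.choose s : ℕ) : ℂ) := (map_natCast MvPolynomial.C _).symm
  rw [h2, sum_mul, sum_mul, sum_mul, map_sum]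
  refine sum_congr rfl fun k _ => ?_
  rw [MvPolynomial.monomial_mul, mul_comm _ (MvPolynomial.C _), MvPolynomial.C_mul_monomial,
    MvPolynomial.monomial_mul, L_monomial, mul_one, mul_one]
  unfold EE
  rw [add_comm (∑ a ∈ A, k a • a)]

lemma dg_EE {i₀ : Fin n} {D : ℕ} {A : Finset (Fin n →₀ ℕ)} (hA : ∀ a ∈ A, dg a = D)
    (b : Fin n →₀ ℕ) {m s : ℕ} (hs : s ≤ m) {k : (Fin n →₀ ℕ) → ℕ} (hk : k ∈ A.piAntidiag s) :
    dg (EE i₀ D A b m s k) = D * m + dg b := by
  unfold EE
  rw [dg_add, dg_add, dg_smul, dg_single, dg_sum]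
  rw [mem_piAntidiag] at hk
  have h1 : ∑ a ∈ A, dg (k a • a) = s * D := by
    rw [← hk.1, sum_mul]
    exact sum_congr rfl fun a ha => by rw [dg_smul, hA a ha]
  rw [h1]
  congr 1
  rw [← Nat.add_mul, Nat.sub_add_cancel hs, mul_comm]

/-- the domination -/
lemma dom {i₀ : Fin n} {D : ℕ} {A : Finset (Fin n →₀ ℕ)} (hA : ∀ a ∈ A, dg a = D)
    (hne : ∀ a ∈ A, a ≠ Finsupp.single i₀ D)
    (b : Fin n →₀ ℕ) {m s : ℕ} (hs : s ≤ m) {k : (Fin n →₀ ℕ) → ℕ} (hk : k ∈ A.piAntidiag s) :
    fac (EE i₀ D A b m s k) * (m.choose s * (Nat.multinomial A k * ∏ a ∈ A, mu a ^ k a)) ≤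
      (D * m + dg b).factorial := by
  classical
  set M0 : Fin n →₀ ℕ := Finsupp.single i₀ D with hM0
  have hM : M0 ∉ A := fun h => hne _ h rfl
  have hkM : k M0 = 0 := by
    by_contra h
    exact hM ((mem_piAntidiag.1 hk).2 _ h)
  obtain ⟨κ, hκM, hκn⟩ : ∃ κ : (Fin n →₀ ℕ) → ℕ, κ M0 = m - s ∧ ∀ a, a ≠ M0 → κ a = k a :=
    ⟨fun a => if a = M0 then m - s else k a, if_pos rfl, fun a ha => if_neg ha⟩
  have hκA : ∀ a ∈ A, κ a = k a := fun a ha => hκn a (hne a ha)
  have hsum : ∑ a ∈ A, κ a = s := by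
    rw [sum_congr rfl hκA]
    exact (mem_piAntidiag.1 hk).1
  have hκ : κ ∈ (insert M0 A).piAntidiag m := by
    have hκs : (insert M0 A).sum κ = m := by
      rw [sum_insert hM, hκM, hsum]
      omega
    rw [mem_piAntidiag]
    constructor
    · exact hκs
    · intro a ha
      by_cases h : a = M0
      · rw [h]; exact mem_insert_self _ _
      · refine mem_insert_of_mem ((mem_piAntidiag.1 hk).2 a ?_)
        rw [← hκn a h]; exact ha
  have h1 := star D m (insert M0 A) (by
    intro a ha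
    rcases mem_insert.1 ha with h | h
    · rw [h, hM0, dg_single]
    · exact hA a h) κ hκ
  rw [sum_insert hM, prod_insert hM, Nat.multinomial_insert hM, hκM, hsum, hM0, mu_single,
    one_pow, one_mul, ← hM0] at h1
  rw [sum_congr rfl (fun a ha => by rw [hκA a ha]),
    prod_congr rfl (fun a ha => by rw [hκA a ha]),
    Nat.multinomial_congr hκA, Nat.sub_add_cancel hs, Nat.choose_symm hs] at h1
  set E : Fin n →₀ ℕ := (m - s) • M0 + ∑ a ∈ A, k a • a with hE
  have hdE : dg E = D * m := by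
    have := dg_EE (i₀ := i₀) hA 0 hs hk
    unfold EE at this
    rw [add_zero] at this
    rw [hE, this]
    simp [dg]
  have h2 := fac_add_le E b
  rw [hdE] at h2
  have h3 : EE i₀ D A b m s k = E + b := rfl
  rw [h3]
  set Wc := m.choose s * (Nat.multinomial A k * ∏ a ∈ A, mu a ^ k a) with hWc
  have h4 : fac E * Wc ≤ (D * m).factorial := by
    rw [hWc]
    refine le_trans (le_of_eq ?_) h1
    ring
  have h5 : (fac (E + b) * Wc) * (D * m).factorial ≤ (D * m + dg b).factorial *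
      (D * m).factorial := by
    calc (fac (E + b) * Wc) * (D * m).factorial = (fac (E + b) * (D * m).factorial) * Wc := by ring
      _ ≤ (fac E * (D * m + dg b).factorial) * Wc := Nat.mul_le_mul_right _ h2
      _ = (D * m + dg b).factorial * (fac E * Wc) := by ring
      _ ≤ _ := Nat.mul_le_mul_left _ h4
  exact Nat.le_of_mul_le_mul_right h5 (Nat.factorial_pos _)

/-- the factorials of the fixed coordinates -/
noncomputable def Wf (i₀ : Fin n) (A : Finset (Fin n →₀ ℕ)) (b : Fin n →₀ ℕ)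
    (k : (Fin n →₀ ℕ) → ℕ) : ℕ :=
  ∏ i ∈ univ.erase i₀, ((∑ a ∈ A, k a • a + b) i).factorial

lemma fac_EE {i₀ : Fin n} {D : ℕ} {A : Finset (Fin n →₀ ℕ)} (hA : ∀ a ∈ A, dg a = D)
    (b : Fin n →₀ ℕ) {m s : ℕ} (hs : s ≤ m) {k : (Fin n →₀ ℕ) → ℕ} (hk : k ∈ A.piAntidiag s) :
    fac (EE i₀ D A b m s k) * (D * m + dg b).descFactorial (wt i₀ (∑ a ∈ A, k a • a + b)) =
      Wf i₀ A b k * (D * m + dg b).factorial := by
  classical
  set y := wt i₀ (∑ a ∈ A, k a • a + b) with hy
  have h1 := dg_EE (i₀ := i₀) hA b hs hk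
  have hwE : wt i₀ (EE i₀ D A b m s k) = y := by
    unfold EE
    rw [add_assoc, wt_add, wt_smul, wt_single, mul_zero, zero_add]
  rw [dg_eq i₀, hwE] at h1
  have h2 : fac (EE i₀ D A b m s k) = (EE i₀ D A b m s k i₀).factorial * Wf i₀ A b k := by
    unfold fac Wf
    rw [← mul_prod_erase univ _ (mem_univ i₀)]
    congr 1
    refine prod_congr rfl fun i hi => ?_
    have : EE i₀ D A b m s k i = (∑ a ∈ A, k a • a + b) i := by
      unfold EE
      rw [add_assoc, Finsupp.add_apply, Finsupp.smul_apply, Finsupp.single_apply,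
        if_neg (ne_of_mem_erase hi).symm, smul_zero, zero_add]
    rw [this]
  have h3 : y ≤ D * m + dg b := by omega
  have h4 : EE i₀ D A b m s k i₀ = D * m + dg b - y := by omega
  rw [h2, h4]
  have h5 := Nat.factorial_mul_descFactorial h3
  calc (D * m + dg b - y).factorial * Wf i₀ A b k * (D * m + dg b).descFactorial y
      = Wf i₀ A b k * ((D * m + dg b - y).factorial * (D * m + dg b).descFactorial y) := by ring
    _ = _ := by rw [h5]

/-- the special exponents -/
noncomputable def sp (i₀ : Fin n) (D : ℕ) (i : Fin n) : Fin n →₀ ℕ :=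
  Finsupp.single i₀ (D - 1) + Finsupp.single i 1

lemma eq_sp {i₀ : Fin n} {D : ℕ} {a : Fin n →₀ ℕ} (hd : dg a = D) (hw : wt i₀ a = 1) :
    ∃ i, i ≠ i₀ ∧ a = sp i₀ D i := by
  unfold wt at hw
  obtain ⟨i, hi, h1⟩ : ∃ i ∈ univ.erase i₀, a i ≠ 0 := by
    by_contra hcon
    push Not at hcon
    rw [sum_eq_zero hcon] at hw
    omega
  have h2 := add_sum_erase (univ.erase i₀) (fun i => a i) hi
  rw [hw] at h2
  have h3 : a i = 1 := by omega
  have h4 : ∑ j ∈ (univ.erase i₀).erase i, a j = 0 := by omega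
  refine ⟨i, ne_of_mem_erase hi, ?_⟩
  have h5 : a i₀ = D - 1 := by
    have := dg_eq i₀ a
    unfold wt at this
    rw [hw, hd] at this
    omega
  have hne : i ≠ i₀ := ne_of_mem_erase hi
  ext j
  unfold sp
  rw [Finsupp.add_apply]
  by_cases hj0 : j = i₀
  · subst hj0
    rw [Finsupp.single_eq_same, Finsupp.single_apply, if_neg hne, h5, add_zero]
  · rw [Finsupp.single_apply, if_neg (fun h => hj0 h.symm), zero_add]
    by_cases hj : j = i
    · subst hj
      rw [Finsupp.single_eq_same, h3]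
    · rw [Finsupp.single_apply, if_neg (fun h => hj h.symm)]
      exact (sum_eq_zero_iff.1 h4) j (mem_erase.2 ⟨hj, mem_erase.2 ⟨hj0, mem_univ j⟩⟩)

lemma sp_apply {i₀ : Fin n} {D : ℕ} {i j : Fin n} (hj : j ≠ i₀) :
    sp i₀ D i j = if i = j then 1 else 0 := by
  unfold sp
  rw [Finsupp.add_apply, Finsupp.single_apply, if_neg (fun h => hj h.symm), zero_add,
    Finsupp.single_apply]

/-- the limit coefficients -/
lemma coef_id {i₀ : Fin n} {D : ℕ} {A : Finset (Fin n →₀ ℕ)} (hA : ∀ a ∈ A, dg a = D)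
    (hne : ∀ a ∈ A, a ≠ Finsupp.single i₀ D) (b : Fin n →₀ ℕ) (hb : wt i₀ b = 0) {s : ℕ}
    {k : (Fin n →₀ ℕ) → ℕ} (hk : k ∈ A.piAntidiag s) :
    (Nat.multinomial A k : ℝ) * Wf i₀ A b k * 0 ^ (wt i₀ (∑ a ∈ A, k a • a + b) - s) =
      s.factorial * ∏ a ∈ A, (0 : ℝ) ^ ((wt i₀ a - 1) * k a) := by
  classical
  have hw1 : ∀ a ∈ A, 1 ≤ wt i₀ a := by
    intro a ha
    by_contra h
    have h0 : wt i₀ a = 0 := by omega
    apply hne a ha
    rw [eq_single_of_wt h0, hA a ha]
  have hk' := mem_piAntidiag.1 hk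
  have hy : wt i₀ (∑ a ∈ A, k a • a + b) = ∑ a ∈ A, k a * wt i₀ a := by
    rw [wt_add, hb, add_zero, wt_sum]
    exact sum_congr rfl fun a _ => wt_smul _ _ _
  have hyd : wt i₀ (∑ a ∈ A, k a • a + b) - s = ∑ a ∈ A, (wt i₀ a - 1) * k a := by
    have h1 : ∑ a ∈ A, k a * wt i₀ a = ∑ a ∈ A, (wt i₀ a - 1) * k a + ∑ a ∈ A, k a := by
      rw [← sum_add_distrib]
      refine sum_congr rfl fun a ha => ?_
      have h2 := hw1 a ha
      obtain ⟨w, hw⟩ : ∃ w, wt i₀ a = w + 1 := ⟨wt i₀ a - 1, by omega⟩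
      rw [hw, Nat.add_sub_cancel]
      ring
    rw [hy, h1, hk'.1, Nat.add_sub_cancel]
  rw [hyd, prod_pow_eq_pow_sum]
  by_cases hz : ∑ a ∈ A, (wt i₀ a - 1) * k a = 0
  · rw [hz, pow_zero, mul_one, mul_one]
    have hk1 : ∀ a ∈ A, k a ≠ 0 → wt i₀ a = 1 := by
      intro a ha hka
      have h1 := (sum_eq_zero_iff.1 hz) a ha
      rcases Nat.mul_eq_zero.1 h1 with h2 | h2
      · have := hw1 a ha
        omega
      · exact absurd h2 hka
    have hW : Wf i₀ A b k = ∏ a ∈ A, (k a).factorial := by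
      unfold Wf
      have h1 : ∀ i ∈ univ.erase i₀, (∑ a ∈ A, k a • a + b) i = k (sp i₀ D i) := by
        intro i hi
        have hi0 : i ≠ i₀ := ne_of_mem_erase hi
        have hbi : b i = 0 := (sum_eq_zero_iff.1 hb) i hi
        rw [Finsupp.add_apply, hbi, add_zero, Finsupp.finsetSum_apply]
        by_cases hsp : sp i₀ D i ∈ A
        · rw [sum_eq_single (sp i₀ D i)]
          · rw [Finsupp.smul_apply, sp_apply hi0, if_pos rfl, smul_eq_mul, mul_one]
          · intro a ha hai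
            rw [Finsupp.smul_apply, smul_eq_mul]
            by_cases hka : k a = 0
            · rw [hka, zero_mul]
            · obtain ⟨i', hi', rfl⟩ := eq_sp (hA a ha) (hk1 a ha hka)
              rw [sp_apply hi0, if_neg, mul_zero]
              intro h
              exact hai (by rw [h])
          · intro h
            exact absurd hsp h
        · have h0 : k (sp i₀ D i) = 0 := by
            by_contra h
            exact hsp (hk'.2 _ h)
          rw [h0]
          refine sum_eq_zero fun a ha => ?_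
          rw [Finsupp.smul_apply, smul_eq_mul]
          by_cases hka : k a = 0
          · rw [hka, zero_mul]
          · obtain ⟨i', hi', rfl⟩ := eq_sp (hA a ha) (hk1 a ha hka)
            rw [sp_apply hi0, if_neg, mul_zero]
            intro h
            exact hsp (by rw [← h]; exact ha)
      rw [prod_congr rfl fun i hi => by rw [h1 i hi]]
      have hinj : Set.InjOn (sp i₀ D) (univ.erase i₀ : Finset (Fin n)) := by
        intro i hi j hj hij
        have hi0 : i ≠ i₀ := ne_of_mem_erase (mem_coe.1 hi)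
        have h2 := DFunLike.congr_fun hij i
        rw [sp_apply hi0, sp_apply hi0, if_pos rfl] at h2
        by_contra hne'
        rw [if_neg (fun h => hne' h.symm)] at h2
        omega
      rw [← prod_image (g := sp i₀ D) (f := fun a => (k a).factorial) hinj]
      have e1 : ∏ a ∈ (univ.erase i₀).image (sp i₀ D), (k a).factorial =
          ∏ a ∈ (univ.erase i₀).image (sp i₀ D) ∪ A, (k a).factorial := by
        refine prod_subset subset_union_left fun a ha ha' => ?_
        rcases mem_union.1 ha with h | h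
        · exact absurd h ha'
        · by_cases hka : k a = 0
          · rw [hka, Nat.factorial_zero]
          · obtain ⟨i', hi', rfl⟩ := eq_sp (hA a h) (hk1 a h hka)
            exact absurd (mem_image_of_mem _ (mem_erase.2 ⟨hi', mem_univ _⟩)) ha'
      have e2 : ∏ a ∈ A, (k a).factorial =
          ∏ a ∈ (univ.erase i₀).image (sp i₀ D) ∪ A, (k a).factorial := by
        refine prod_subset subset_union_right fun a _ ha' => ?_
        have : k a = 0 := by
          by_contra h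
          exact ha' (hk'.2 _ h)
        rw [this, Nat.factorial_zero]
      rw [e1, e2]
    have h3 := Nat.multinomial_spec A k
    rw [hk'.1] at h3
    rw [hW, ← h3]
    push_cast
    ring
  · rw [zero_pow hz, mul_zero, mul_zero]

end Pool.Agent.NH47.FC
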